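import Mathlib
import Pool.Agent.Work.MP_2dba45_nt.BilBase

set_option autoImplicit false

namespace Pool.Agent.Work.MP_73869e_nt.BK

open Finset Pool.Agent.Work.MP_2dba45_nt.BilDef Pool.Agent.Work.MP_2dba45_nt.Bil

/-- the remainder for `n ≡ g c (mod r)`, `D ∣ n ^ 2 + g ^ 2`, with weight `W` on `(N, 2 N]`;
used for `gcd (D, g r) = 1` -/
noncomputable def RemK (W : ℕ → ℝ) (N D g r c : ℕ) : ℝ :=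
  ∑ n ∈ (Ioc N (2 * N)).filter (fun n => n ≡ g * c [MOD r] ∧ D ∣ n ^ 2 + g ^ 2), W n
    - (#(Rt D) : ℝ) / ((D : ℝ) * r) * ∑ n ∈ Ioc N (2 * N), W n

/-- the bilinear remainder bound of level `N ^ (1 - ε) * N ^ (1 / 12 - ε)` for `n ^ 2 + g ^ 2`,
uniformly in `g ≤ N ^ η` -/
def BILK : Prop :=
  ∀ ε : ℝ, 0 < ε → ε < 1 / 100 → ∃ η : ℝ, 0 < η ∧ ∃ c₀ : ℝ, 0 < c₀ ∧ ∃ N₀ : ℕ,
    ∀ N : ℕ, N₀ ≤ N → ∃ W : ℕ → ℝ, (∀ n, 0 ≤ W n ∧ W n ≤ 1) ∧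
      (∀ n, n ≤ N ∨ 2 * N < n → W n = 0) ∧ c₀ * N ≤ ∑ n ∈ Ioc N (2 * N), W n ∧
      ∀ g r c : ℕ, 1 ≤ g → (g : ℝ) ≤ (N : ℝ) ^ η → 1 ≤ r → (r : ℝ) ≤ (N : ℝ) ^ η →
        ∀ M Q : ℝ, M ≤ (N : ℝ) ^ (1 - ε) → Q ≤ (N : ℝ) ^ (1 / 12 - ε) →
          ∀ b : ℕ → ℝ, (∀ q, |b q| ≤ 1) →
            ∑ m ∈ (Icc 1 ⌊M⌋₊).filter (fun m => m.Coprime (g * r)),
              |∑ q ∈ (Icc 1 ⌊Q⌋₊).filter (fun q => Squarefree q ∧ q.Coprime (2 * m * (g * r))),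
                b q * RemK W N (m * q) g r c| ≤ (N : ℝ) ^ (1 - η)

/-- the term attached to `(m, ω)` and `(q, σ, h)` -/
noncomputable def XK (j K N g r c m ω q σ : ℕ) (h : ℤ) : ℂ :=
  1 / ((m : ℂ) * q * r) * What j K N (h / ((m : ℝ) * q * r)) *
    ee (-(((g * h : ℤ) : ℝ) * nuS m ω q σ r c / ((m : ℝ) * q * r)))

/-- the smooth factor for fixed `y` -/
noncomputable def FFK (j K N g y q₁ q₂ r : ℕ) (h₁ h₂ : ℤ) (x : ℕ) : ℂ :=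
  1 / (((x : ℂ) ^ 2 + (y : ℂ) ^ 2) * q₁ * r) * What j K N (h₁ / (((x : ℝ) ^ 2 + (y : ℝ) ^ 2) * q₁ * r)) *
  (starRingEnd ℂ) (1 / (((x : ℂ) ^ 2 + (y : ℂ) ^ 2) * q₂ * r) *
    What j K N (h₂ / (((x : ℝ) ^ 2 + (y : ℝ) ^ 2) * q₂ * r))) *
  ee ((((g * h₁ : ℤ) : ℝ) / q₁ - ((g * h₂ : ℤ) : ℝ) / q₂) * x / (y * r * ((x : ℝ) ^ 2 + (y : ℝ) ^ 2)))

end Pool.Agent.Work.MP_73869e_nt.BK
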