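import Mathlib
import Pool.Agent.Work.MP_2dba45_nt.BilRem
import Pool.Agent.Work.MP_73869e_nt.BK.KDef

set_option autoImplicit false

namespace Pool.Agent.Work.MP_73869e_nt.BK

open Finset Pool.Agent.Work.MP_2dba45_nt.BilDef Pool.Agent.Work.MP_2dba45_nt.Bil

theorem sum_RtK (m g n : ℕ) (hm : 1 ≤ m) (hg : m.Coprime g) (z : ℝ) :
    ∑ ω ∈ Rt m, (if n ≡ g * ω [MOD m] then z else 0) = if m ∣ n ^ 2 + g ^ 2 then z else 0 := by
  -- an inverse of `g` modulo `m`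
  obtain ⟨g', hg'⟩ : ∃ g' : ℕ, g * g' ≡ 1 [MOD m] := by
    rcases Nat.lt_or_ge 1 m with h1 | h1
    · obtain ⟨x, hx⟩ := Nat.exists_mul_mod_eq_one_of_coprime hg.symm h1
      refine ⟨x, ?_⟩
      unfold Nat.ModEq
      rw [hx.2, Nat.mod_eq_of_lt h1]
    · have : m = 1 := by omega
      subst this
      exact ⟨0, Nat.modEq_one⟩
  have key : ∀ ω : ℕ, n ≡ g * ω [MOD m] ↔ g' * n ≡ ω [MOD m] := by
    intro ω
    constructor
    · intro h
      have h1 : g' * n ≡ g' * (g * ω) [MOD m] := Nat.ModEq.mul_left g' h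
      have h2 : g' * (g * ω) = (g * g') * ω := by ring
      rw [h2] at h1
      have h3 : (g * g') * ω ≡ 1 * ω [MOD m] := Nat.ModEq.mul_right ω hg'
      rw [one_mul] at h3
      exact h1.trans h3
    · intro h
      have h1 : g * (g' * n) ≡ g * ω [MOD m] := Nat.ModEq.mul_left g h
      have h2 : g * (g' * n) = (g * g') * n := by ring
      rw [h2] at h1
      have h3 : (g * g') * n ≡ 1 * n [MOD m] := Nat.ModEq.mul_right n hg'
      rw [one_mul] at h3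
      exact h3.symm.trans h1
  simp only [key]
  rw [RemAux.sum_Rt m (g' * n) hm z]
  have h4 : m ∣ (g' * n) ^ 2 + 1 ↔ m ∣ n ^ 2 + g ^ 2 := by
    have h5 : (g * g') ^ 2 * n ^ 2 + g ^ 2 ≡ 1 ^ 2 * n ^ 2 + g ^ 2 [MOD m] :=
      Nat.ModEq.add_right _ (Nat.ModEq.mul_right _ (hg'.pow 2))
    rw [one_pow, one_mul] at h5
    have h6 : (g * g') ^ 2 * n ^ 2 + g ^ 2 = g ^ 2 * ((g' * n) ^ 2 + 1) := by ring
    rw [h6] at h5
    rw [← h5.dvd_iff (dvd_refl m)]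
    constructor
    · intro h
      exact h.mul_left _
    · intro h
      exact (Nat.Coprime.pow_right 2 hg).dvd_of_dvd_mul_left h
  simp only [h4]

theorem modEq_gnuS_iff (m ω q σ g r c n : ℕ) (hmq : m.Coprime q) (hmr : (m * q).Coprime r) :
    n ≡ g * nuS m ω q σ r c [MOD m * q * r] ↔
      n ≡ g * ω [MOD m] ∧ n ≡ g * σ [MOD q] ∧ n ≡ g * c [MOD r] := by
  obtain ⟨h1, h2, h3⟩ := nuS_spec m ω q σ r c hmq hmr
  rw [← Nat.modEq_and_modEq_iff_modEq_mul hmr, ← Nat.modEq_and_modEq_iff_modEq_mul hmq]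
  constructor
  · rintro ⟨⟨a, b⟩, d⟩
    exact ⟨a.trans (Nat.ModEq.mul_left g h1), b.trans (Nat.ModEq.mul_left g h2),
      d.trans (Nat.ModEq.mul_left g h3)⟩
  · rintro ⟨a, b, d⟩
    exact ⟨⟨a.trans (Nat.ModEq.mul_left g h1.symm), b.trans (Nat.ModEq.mul_left g h2.symm)⟩,
      d.trans (Nat.ModEq.mul_left g h3.symm)⟩

theorem rem_eqK (j K N g m q r c : ℕ) (hj : 2 ≤ j) (hK : 1 ≤ K) (hjK : j * K ≤ N) (hm : 1 ≤ m)
    (hq : 1 ≤ q) (hr : 1 ≤ r) (hmg : m.Coprime g) (hqg : q.Coprime g) (hmq : m.Coprime q) (hmr : (m * q).Coprime r) :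
    RemK (W j K N) N (m * q) g r c = ∑ ω ∈ Rt m, ∑ σ ∈ Rt q,
      ((∑ n ∈ (Ioc N (2 * N)).filter (fun n => n ≡ g * nuS m ω q σ r c [MOD m * q * r]), W j K N n)
        - K / ((m : ℝ) * q * r)) := by
  unfold RemK
  rw [sum_W j K N (by omega) hK hjK, RemAux.card_Rt_mul m q hm hq hmq]
  have h1 : ∑ ω ∈ Rt m, ∑ σ ∈ Rt q, ((∑ n ∈ (Ioc N (2 * N)).filter
      (fun n => n ≡ g * nuS m ω q σ r c [MOD m * q * r]), W j K N n) - K / ((m : ℝ) * q * r)) =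
      (∑ ω ∈ Rt m, ∑ σ ∈ Rt q, (∑ n ∈ (Ioc N (2 * N)).filter
      (fun n => n ≡ g * nuS m ω q σ r c [MOD m * q * r]), W j K N n)) -
      (#(Rt m) : ℝ) * #(Rt q) * (K / ((m : ℝ) * q * r)) := by
    simp only [sum_sub_distrib, sum_const, nsmul_eq_mul]
    ring
  rw [h1]
  have h2 : ∑ ω ∈ Rt m, ∑ σ ∈ Rt q, (∑ n ∈ (Ioc N (2 * N)).filter
      (fun n => n ≡ g * nuS m ω q σ r c [MOD m * q * r]), W j K N n) =
      ∑ n ∈ (Ioc N (2 * N)).filter (fun n => n ≡ g * c [MOD r] ∧ m * q ∣ n ^ 2 + g ^ 2), W j K N n := by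
    simp only [sum_filter]
    have h3 : ∀ ω ∈ Rt m, ∑ σ ∈ Rt q, ∑ n ∈ Ioc N (2 * N),
        (if n ≡ g * nuS m ω q σ r c [MOD m * q * r] then W j K N n else 0) =
        ∑ n ∈ Ioc N (2 * N), if n ≡ g * ω [MOD m] then
          (if q ∣ n ^ 2 + g ^ 2 then (if n ≡ g * c [MOD r] then W j K N n else 0) else 0) else 0 := by
      intro ω _
      rw [sum_comm]
      refine sum_congr rfl fun n _ => ?_
      rw [← sum_RtK q g n hq hqg]
      by_cases hω : n ≡ g * ω [MOD m]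
      · rw [if_pos hω]
        refine sum_congr rfl fun σ _ => ?_
        by_cases hσ : n ≡ g * σ [MOD q]
        · rw [if_pos hσ]
          by_cases hc : n ≡ g * c [MOD r]
          · rw [if_pos hc, if_pos ((modEq_gnuS_iff m ω q σ g r c n hmq hmr).2 ⟨hω, hσ, hc⟩)]
          · rw [if_neg hc, if_neg]
            exact fun h => hc ((modEq_gnuS_iff m ω q σ g r c n hmq hmr).1 h).2.2
        · rw [if_neg hσ, if_neg]
          exact fun h => hσ ((modEq_gnuS_iff m ω q σ g r c n hmq hmr).1 h).2.1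
      · rw [if_neg hω]
        refine sum_eq_zero fun σ _ => ?_
        rw [if_neg]
        exact fun h => hω ((modEq_gnuS_iff m ω q σ g r c n hmq hmr).1 h).1
    rw [sum_congr rfl h3, sum_comm]
    refine sum_congr rfl fun n _ => ?_
    rw [sum_RtK m g n hm hmg]
    by_cases hmn : m ∣ n ^ 2 + g ^ 2
    · by_cases hqn : q ∣ n ^ 2 + g ^ 2
      · have : m * q ∣ n ^ 2 + g ^ 2 := hmq.mul_dvd_of_dvd_of_dvd hmn hqn
        by_cases hc : n ≡ g * c [MOD r]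
        · rw [if_pos hmn, if_pos hqn, if_pos hc, if_pos ⟨hc, this⟩]
        · rw [if_pos hmn, if_pos hqn, if_neg hc, if_neg]
          exact fun h => hc h.1
      · rw [if_pos hmn, if_neg hqn, if_neg]
        exact fun h => hqn ((dvd_mul_left q m).trans h.2)
    · rw [if_neg hmn, if_neg]
      exact fun h => hmn ((dvd_mul_right m q).trans h.2)
  rw [h2]
  push_cast
  ring

theorem rem_truncK (j K N g m q r c H : ℕ) (hj : 2 ≤ j) (hK : 1 ≤ K) (hjK : j * K ≤ N)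
    (hm : 1 ≤ m) (hq : 1 ≤ q) (hr : 1 ≤ r) (hmg : m.Coprime g) (hqg : q.Coprime g) (hmq : m.Coprime q) (hmr : (m * q).Coprime r)
    (hH : 1 ≤ H) (h2 : 2 * H < m * q * r) :
    ‖(RemK (W j K N) N (m * q) g r c : ℂ)
      - ∑ ω ∈ Rt m, ∑ σ ∈ Rt q, ∑ h ∈ Hs H, XK j K N g r c m ω q σ h‖
      ≤ (#(Rt m) : ℝ) * #(Rt q) * ((m : ℝ) * q * r / (2 * K * H)) ^ (j - 1) := by
  rw [rem_eqK j K N g m q r c hj hK hjK hm hq hr hmg hqg hmq hmr]
  push_cast
  rw [← sum_sub_distrib]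
  simp only [← sum_sub_distrib]
  have hterm : ∀ ω ∈ Rt m, ∀ σ ∈ Rt q,
      ‖((∑ n ∈ (Ioc N (2 * N)).filter (fun n => n ≡ g * nuS m ω q σ r c [MOD m * q * r]),
        (W j K N n : ℂ)) - (K : ℂ) / ((m : ℂ) * q * r)) -
        ∑ h ∈ Hs H, XK j K N g r c m ω q σ h‖ ≤ ((m : ℝ) * q * r / (2 * K * H)) ^ (j - 1) := by
    intro ω _ σ _
    have h1 := trunc j K N (m * q * r) (g * nuS m ω q σ r c) H hj hK hjK
      (by positivity) hH h2
    push_cast at h1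
    have h3 : ∑ h ∈ Hs H, XK j K N g r c m ω q σ h = 1 / ((m : ℂ) * q * r) * ∑ h ∈ Hs H,
        What j K N ((h : ℝ) / ((m : ℝ) * q * r)) *
          ee (-(h * ((g : ℝ) * (nuS m ω q σ r c : ℝ)) / ((m : ℝ) * q * r))) := by
      rw [mul_sum]
      refine sum_congr rfl fun h _ => ?_
      unfold XK
      push_cast
      have e1 : (-((g : ℝ) * h * (nuS m ω q σ r c : ℝ) / ((m : ℝ) * q * r))) =
        (-(h * ((g : ℝ) * (nuS m ω q σ r c : ℝ)) / ((m : ℝ) * q * r))) := by ring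
      rw [e1]
      ring
    rw [h3]
    exact h1
  calc ‖∑ ω ∈ Rt m, ∑ σ ∈ Rt q, (((∑ n ∈ (Ioc N (2 * N)).filter
        (fun n => n ≡ g * nuS m ω q σ r c [MOD m * q * r]),
        (W j K N n : ℂ)) - (K : ℂ) / ((m : ℂ) * q * r)) -
        ∑ h ∈ Hs H, XK j K N g r c m ω q σ h)‖
      ≤ ∑ ω ∈ Rt m, ∑ σ ∈ Rt q, ((m : ℝ) * q * r / (2 * K * H)) ^ (j - 1) := by
        refine (norm_sum_le _ _).trans (sum_le_sum fun ω hω => ?_)
        exact (norm_sum_le _ _).trans (sum_le_sum fun σ hσ => hterm ω hω σ hσ)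
    _ = (#(Rt m) : ℝ) * #(Rt q) * ((m : ℝ) * q * r / (2 * K * H)) ^ (j - 1) := by
        simp only [sum_const, nsmul_eq_mul]
        ring

theorem rem_smallK (j K N g m q r c : ℕ) (hj : 2 ≤ j) (hK : 1 ≤ K) (hjK : j * K ≤ N) (hm : 1 ≤ m)
    (hq : 1 ≤ q) (hr : 1 ≤ r) (hmg : m.Coprime g) (hqg : q.Coprime g) (hmq : m.Coprime q) (hmr : (m * q).Coprime r) :
    |RemK (W j K N) N (m * q) g r c|
      ≤ (#(Rt m) : ℝ) * #(Rt q) * (2 * ((m : ℝ) * q * r / (2 * K)) ^ (j - 1)) := by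
  rw [rem_eqK j K N g m q r c hj hK hjK hm hq hr hmg hqg hmq hmr]
  have hterm : ∀ ω ∈ Rt m, ∀ σ ∈ Rt q,
      |(∑ n ∈ (Ioc N (2 * N)).filter (fun n => n ≡ g * nuS m ω q σ r c [MOD m * q * r]), W j K N n)
        - K / ((m : ℝ) * q * r)| ≤ 2 * ((m : ℝ) * q * r / (2 * K)) ^ (j - 1) := by
    intro ω _ σ _
    have h1 := trunc_zero j K N (m * q * r) (g * nuS m ω q σ r c) hj hK hjK (by positivity)
    push_cast at h1
    exact h1
  calc |∑ ω ∈ Rt m, ∑ σ ∈ Rt q,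
      ((∑ n ∈ (Ioc N (2 * N)).filter (fun n => n ≡ g * nuS m ω q σ r c [MOD m * q * r]), W j K N n)
        - K / ((m : ℝ) * q * r))|
      ≤ ∑ ω ∈ Rt m, ∑ σ ∈ Rt q, (2 * ((m : ℝ) * q * r / (2 * K)) ^ (j - 1)) := by
        refine (abs_sum_le_sum_abs _ _).trans (sum_le_sum fun ω hω => ?_)
        exact (abs_sum_le_sum_abs _ _).trans (sum_le_sum fun σ hσ => hterm ω hω σ hσ)
    _ = (#(Rt m) : ℝ) * #(Rt q) * (2 * ((m : ℝ) * q * r / (2 * K)) ^ (j - 1)) := by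
        simp only [sum_const, nsmul_eq_mul]
        ring

end Pool.Agent.Work.MP_73869e_nt.BK
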