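import Mathlib
import Pool.Agent.Work.MP_2dba45_nt.BilPar
import Pool.Agent.Work.MP_73869e_nt.BK.KDef

set_option autoImplicit false

namespace Pool.Agent.Work.MP_73869e_nt.BK

open Finset Pool.Agent.Work.MP_2dba45_nt.BilDef Pool.Agent.Work.MP_2dba45_nt.Bil

/-- `X₁ conj X₂` in terms of `FF` and `Phi` -/
theorem XK_mul_conj (j K N g r c x y q₁ σ₁ q₂ σ₂ : ℕ) (h₁ h₂ : ℤ) (hx : 1 ≤ x) (hy : 1 ≤ y)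
    (hxy : x.Coprime y) (hq₁ : 1 ≤ q₁) (hq₂ : 1 ≤ q₂) (hσ₁ : q₁ ∣ σ₁ ^ 2 + 1)
    (hσ₂ : q₂ ∣ σ₂ ^ 2 + 1) (hr : 1 ≤ r) (hqr₁ : q₁.Coprime r) (hqr₂ : q₂.Coprime r)
    (hm : (x ^ 2 + y ^ 2).Coprime (q₁ * q₂ * r)) :
    XK j K N g r c (x ^ 2 + y ^ 2) (om x y) q₁ σ₁ h₁ *
      (starRingEnd ℂ) (XK j K N g r c (x ^ 2 + y ^ 2) (om x y) q₂ σ₂ h₂) =
      FFK j K N g y q₁ q₂ r h₁ h₂ x * Phi y q₁ σ₁ q₂ σ₂ r c (g * h₁) (g * h₂) x := by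
  have hm12 := Nat.Coprime.coprime_mul_right_right hm
  have hmr := Nat.Coprime.coprime_mul_left_right hm
  have hm1 : (x ^ 2 + y ^ 2).Coprime (q₁ * r) :=
    Nat.Coprime.mul_right (Nat.Coprime.coprime_mul_right_right hm12) hmr
  have hm2 : (x ^ 2 + y ^ 2).Coprime (q₂ * r) :=
    Nat.Coprime.mul_right (Nat.Coprime.coprime_mul_left_right hm12) hmr
  have p1 := aa_phase x y q₁ σ₁ r c hx hy hxy hq₁ hσ₁ hr hqr₁ hm1 (g * h₁)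
  have p2 := aa_phase x y q₂ σ₂ r c hx hy hxy hq₂ hσ₂ hr hqr₂ hm2 (g * h₂)
  unfold XK FFK Phi
  rw [if_pos ⟨hxy, hm⟩, p1, p2]
  rw [map_mul, ← ee_neg]
  push_cast
  have e1 : ee (-(((g : ℝ) * h₁) * (aa x y q₁ σ₁ r c : ℝ) / ((q₁ : ℝ) * y * r)) +
        ((g : ℝ) * h₁) / q₁ * x / (y * r * ((x : ℝ) ^ 2 + (y : ℝ) ^ 2))) *
      ee (-(-(((g : ℝ) * h₂) * (aa x y q₂ σ₂ r c : ℝ) / ((q₂ : ℝ) * y * r)) +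
        ((g : ℝ) * h₂) / q₂ * x / (y * r * ((x : ℝ) ^ 2 + (y : ℝ) ^ 2)))) =
      ee ((((g : ℝ) * h₁) / q₁ - ((g : ℝ) * h₂) / q₂) * x / (y * r * ((x : ℝ) ^ 2 + (y : ℝ) ^ 2))) *
      ee (-(((g : ℝ) * h₁) * (aa x y q₁ σ₁ r c : ℝ) / ((q₁ : ℝ) * y * r)) +
        ((g : ℝ) * h₂) * (aa x y q₂ σ₂ r c : ℝ) / ((q₂ : ℝ) * y * r)) := by
    rw [← ee_add, ← ee_add]
    congr 1
    ring
  linear_combination (1 / (((x : ℂ) ^ 2 + (y : ℂ) ^ 2) * q₁ * r) *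
    What j K N (h₁ / (((x : ℝ) ^ 2 + (y : ℝ) ^ 2) * q₁ * r)) *
    (starRingEnd ℂ) (1 / (((x : ℂ) ^ 2 + (y : ℂ) ^ 2) * q₂ * r) *
      What j K N (h₂ / (((x : ℝ) ^ 2 + (y : ℝ) ^ 2) * q₂ * r)))) * e1

end Pool.Agent.Work.MP_73869e_nt.BK
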