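import Mathlib
import Pool.Agent.Work.MP_2dba45_nt.BilIn
import Pool.Agent.Work.MP_73869e_nt.BK.KX

set_option autoImplicit false

namespace Pool.Agent.Work.MP_73869e_nt.BK

open Finset Pool.Agent.Work.MP_2dba45_nt.BilDef Pool.Agent.Work.MP_2dba45_nt.Bil

theorem norm_XK_le (j K N g r c m ω q σ M Q : ℕ) (h : ℤ) (hj : 1 ≤ j) (hK : 1 ≤ K)
    (hjK : j * K ≤ N) (hr : 1 ≤ r) (hM : 1 ≤ M) (hQ : 1 ≤ Q) (hm : M ≤ m) (hq : Q ≤ q) :
    ‖XK j K N g r c m ω q σ h‖ ≤ (K : ℝ) / (M * Q * r) := by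
  have h1 := InAux.norm_X_le j K N r c m ω q σ M Q h hj hK hjK hr hM hQ hm hq
  refine le_trans (le_of_eq ?_) h1
  unfold XK X
  rw [norm_mul, norm_mul, norm_mul, norm_mul, norm_ee, norm_ee]

theorem inner_trivK (j K N g r c M Q H q₁ σ₁ q₂ σ₂ : ℕ) (h₁ h₂ : ℤ) (hj : 1 ≤ j) (hK : 1 ≤ K)
    (hjK : j * K ≤ N) (hr : 1 ≤ r) (hM : 1 ≤ M) (hQ : 1 ≤ Q)
    (ht₁ : (q₁, σ₁, h₁) ∈ TT Q r H) (ht₂ : (q₂, σ₂, h₂) ∈ TT Q r H) :
    ‖∑ m ∈ (Ico M (2 * M)).filter (fun m => m.Coprime (q₁ * q₂ * r)), ∑ ω ∈ Rt m,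
        XK j K N g r c m ω q₁ σ₁ h₁ * (starRingEnd ℂ) (XK j K N g r c m ω q₂ σ₂ h₂)‖ ≤
      (∑ m ∈ Ico M (2 * M), (#(Rt m) : ℝ)) * ((K : ℝ) / (M * Q * r)) ^ 2 := by
  obtain ⟨a1, _⟩ := InAux.mem_TT ht₁
  obtain ⟨a2, _⟩ := InAux.mem_TT ht₂
  refine (norm_sum_le _ _).trans ?_
  rw [sum_mul]
  refine (sum_le_sum (f := fun m => ‖∑ ω ∈ Rt m,
        XK j K N g r c m ω q₁ σ₁ h₁ * (starRingEnd ℂ) (XK j K N g r c m ω q₂ σ₂ h₂)‖)
    (g := fun m => (#(Rt m) : ℝ) * ((K : ℝ) / (M * Q * r)) ^ 2) ?_).trans ?_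
  · intro m hm
    rw [mem_filter, mem_Ico] at hm
    refine (norm_sum_le _ _).trans ((sum_le_card_nsmul _ _ (((K : ℝ) / (M * Q * r)) ^ 2) ?_).trans ?_)
    · intro ω _
      rw [norm_mul, RCLike.norm_conj, sq]
      exact mul_le_mul (norm_XK_le j K N g r c m ω q₁ σ₁ M Q h₁ hj hK hjK hr hM hQ hm.1.1 a1)
        (norm_XK_le j K N g r c m ω q₂ σ₂ M Q h₂ hj hK hjK hr hM hQ hm.1.1 a2) (norm_nonneg _)
        (by positivity)
    · rw [nsmul_eq_mul]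
  · exact sum_le_sum_of_subset_of_nonneg (filter_subset _ _) fun _ _ _ => by positivity

theorem sqrt_gcd_le (g q h : ℕ) (hg : 1 ≤ g) :
    Real.sqrt (Nat.gcd q (g * h) : ℕ) ≤ Real.sqrt g * Real.sqrt (Nat.gcd q h : ℕ) := by
  rw [← Real.sqrt_mul (by positivity)]
  apply Real.sqrt_le_sqrt
  have h1 : Nat.gcd q (g * h) ≤ g * Nat.gcd q h := by
    rcases Nat.eq_zero_or_pos (g * Nat.gcd q h) with h0 | h0
    · have h2 : Nat.gcd q h = 0 := by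
        rcases Nat.mul_eq_zero.1 h0 with h3 | h3
        · omega
        · exact h3
      rw [Nat.gcd_eq_zero_iff] at h2
      rw [h2.1, h2.2]
      simp
    · apply Nat.le_of_dvd h0
      calc Nat.gcd q (g * h) ∣ Nat.gcd q g * Nat.gcd q h := Nat.gcd_mul_right_dvd_mul_gcd q g h
        _ ∣ g * Nat.gcd q h := Nat.mul_dvd_mul (Nat.gcd_dvd_right q g) (dvd_refl _)
  exact_mod_cast h1

theorem innerK (hW : WeilBound) (δ : ℝ) (hδ : 0 < δ) : ∃ C : ℝ, 1 ≤ C ∧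
    ∀ (j K N g r c M Q H q₁ σ₁ q₂ σ₂ : ℕ) (h₁ h₂ : ℤ), 1 ≤ j → 1 ≤ K → j * K ≤ N → 1 ≤ r → r ≤ N →
      2 ≤ M → M ≤ N → 1 ≤ Q → Q ≤ N → 1 ≤ H → 1 ≤ g → g * H ≤ N →
      (q₁, σ₁, h₁) ∈ TT Q r H → (q₂, σ₂, h₂) ∈ TT Q r H → h₂ * q₁ - h₁ * q₂ ≠ 0 →
      ‖∑ m ∈ (Ico M (2 * M)).filter (fun m => m.Coprime (q₁ * q₂ * r)), ∑ ω ∈ Rt m,
          XK j K N g r c m ω q₁ σ₁ h₁ * (starRingEnd ℂ) (XK j K N g r c m ω q₂ σ₂ h₂)‖ ≤
        C * (N : ℝ) ^ δ * ((K : ℝ) / (M * Q * r)) ^ 2 *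
          (1 + 4 * Real.pi * N * H / ((M : ℝ) * Q * r)) ^ 2 * (1 + 18 * ((g * H : ℕ) : ℝ) / (Q * Real.sqrt M)) *
          (Q * r * (M : ℝ) ^ (3 / 4 : ℝ)) *
          (g * (Real.sqrt (Nat.gcd q₁ h₁.natAbs) * Real.sqrt (Nat.gcd q₂ h₂.natAbs))) := by
  obtain ⟨C1, hC1, hC1'⟩ := InAux.tau_sq (δ / 3) (by positivity)
  obtain ⟨C2, hC2, hC2'⟩ := bet (δ / 3 / (6 : ℕ)) (by positivity)
  set C3 : ℝ := 2 + 8 ^ (δ / 3 / (4 : ℕ)) / (δ / 3 / (4 : ℕ)) with hC3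
  set C4 : ℝ := 64 ^ (δ / 3 / (6 : ℕ)) with hC4
  have hC31 : 1 ≤ C3 := by
    rw [hC3]
    have : 0 ≤ (8 : ℝ) ^ (δ / 3 / (4 : ℕ)) / (δ / 3 / (4 : ℕ)) := by positivity
    linarith
  have hC41 : 1 ≤ C4 := Real.one_le_rpow (by norm_num) (by positivity)
  have hCC : 1 ≤ C1 * C2 * C3 * C4 :=
    one_le_mul_of_one_le_of_one_le (one_le_mul_of_one_le_of_one_le
      (one_le_mul_of_one_le_of_one_le hC1 hC2) hC31) hC41
  refine ⟨768 * (C1 * C2 * C3 * C4), by linarith, ?_⟩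
  intro j K N g r c M Q H q₁ σ₁ q₂ σ₂ h₁ h₂ hj hK hjK hr hrN hM hMN hQ hQN hH hg hgH ht₁ ht₂ hk
  have hHN : H ≤ N := (Nat.le_mul_of_pos_left H hg).trans hgH
  obtain ⟨a1, b1, c1, d1, e1, f1, g1⟩ := InAux.mem_TT ht₁
  obtain ⟨a2, b2, c2, d2, e2, f2, g2⟩ := InAux.mem_TT ht₂
  have hN : 2 ≤ N := hM.trans hMN
  have hN1 : (1 : ℝ) ≤ N := by
    have : 1 ≤ N := by omega
    exact_mod_cast this
  have hN0 : (0 : ℝ) < N := by linarith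
  have hr1 : (1 : ℝ) ≤ r := by exact_mod_cast hr
  have hQ1 : (1 : ℝ) ≤ Q := by exact_mod_cast hQ
  have hM0 : (0 : ℝ) < M := by
    have : 0 < M := by omega
    exact_mod_cast this
  have hMN' : (M : ℝ) ≤ N := by exact_mod_cast hMN
  have hQN' : (Q : ℝ) ≤ N := by exact_mod_cast hQN
  have hrN' : (r : ℝ) ≤ N := by exact_mod_cast hrN
  have hHN' : (H : ℝ) ≤ N := by exact_mod_cast hHN
  have hq₁0 : (0 : ℝ) < q₁ := by
    have : 0 < q₁ := by omega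
    exact_mod_cast this
  have hq₂0 : (0 : ℝ) < q₂ := by
    have : 0 < q₂ := by omega
    exact_mod_cast this
  have hq₁Q : (q₁ : ℝ) ≤ 2 * Q := by exact_mod_cast b1.le
  have hq₂Q : (q₂ : ℝ) ≤ 2 * Q := by exact_mod_cast b2.le
  have hgz : (g : ℤ) ≠ 0 := by exact_mod_cast (by omega : g ≠ 0)
  have hk' : (g : ℤ) * h₂ * q₁ - (g : ℤ) * h₁ * q₂ ≠ 0 := by
    have h1 : (g : ℤ) * h₂ * q₁ - (g : ℤ) * h₁ * q₂ = g * (h₂ * q₁ - h₁ * q₂) := by ring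
    rw [h1]
    exact mul_ne_zero hgz hk
  set k : ℤ := (g : ℤ) * h₂ * q₁ - (g : ℤ) * h₁ * q₂ with hkdef
  set L : ℕ := 2 * r * q₁ * q₂ * k.natAbs with hL
  set Y : ℕ := Nat.sqrt (2 * M) with hY
  set A : ℝ := ((K : ℝ) / (M * Q * r)) ^ 2 with hAdef
  set B : ℝ := (1 + 4 * Real.pi * N * H / ((M : ℝ) * Q * r)) ^ 2 with hBdef
  set E : ℝ := (1 + 18 * ((g * H : ℕ) : ℝ) / (Q * Real.sqrt M)) with hEdef
  have hA0 : 0 ≤ A := by positivity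
  have hB0 : 0 ≤ B := by positivity
  have hE0 : 0 ≤ E := by positivity
  set GG' : ℝ := Real.sqrt (Nat.gcd q₁ h₁.natAbs) * Real.sqrt (Nat.gcd q₂ h₂.natAbs) with hGG'
  set GG : ℝ := Real.sqrt (Nat.gcd q₁ ((g : ℤ) * h₁).natAbs) * Real.sqrt (Nat.gcd q₂ ((g : ℤ) * h₂).natAbs) with hGG
  have hGGg : GG ≤ g * GG' := by
    have i1 := sqrt_gcd_le g q₁ h₁.natAbs hg
    have i2 := sqrt_gcd_le g q₂ h₂.natAbs hg
    rw [hGG, hGG', Int.natAbs_mul, Int.natAbs_mul, Int.natAbs_natCast]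
    calc Real.sqrt (Nat.gcd q₁ (g * h₁.natAbs) : ℕ) * Real.sqrt (Nat.gcd q₂ (g * h₂.natAbs) : ℕ)
        ≤ (Real.sqrt g * Real.sqrt (Nat.gcd q₁ h₁.natAbs : ℕ)) *
          (Real.sqrt g * Real.sqrt (Nat.gcd q₂ h₂.natAbs : ℕ)) := by gcongr
      _ = (Real.sqrt g * Real.sqrt g) * (Real.sqrt (Nat.gcd q₁ h₁.natAbs : ℕ) *
          Real.sqrt (Nat.gcd q₂ h₂.natAbs : ℕ)) := by ring
      _ = _ := by rw [Real.mul_self_sqrt (Nat.cast_nonneg g)]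
  have hGG0 : 0 ≤ GG := by positivity
  have hYM : (Y : ℝ) ≤ Real.sqrt (2 * M) := by
    have := Real.nat_sqrt_le_real_sqrt (a := 2 * M)
    push_cast at this
    exact this
  have hY1 : 1 ≤ Y := by
    rw [hY, Nat.le_sqrt]
    omega
  have hsqM : Real.sqrt (2 * M) ≤ 2 * N := by
    rw [Real.sqrt_le_left (by positivity)]
    nlinarith
  set D : ℝ := C3 * (N : ℝ) ^ (δ / 3) with hDdef
  have hNd : 1 ≤ (N : ℝ) ^ (δ / 3) := Real.one_le_rpow hN1 (by positivity)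
  have hD1 : 1 ≤ D := one_le_mul_of_one_le_of_one_le hC31 hNd
  -- the bound for one `y`
  have hterm : ∀ y ∈ Icc 1 Y, ‖∑ x ∈ (Icc 1 (Nat.sqrt (2 * M))).filter
      (fun x => (M ≤ x ^ 2 + y ^ 2 ∧ x ^ 2 + y ^ 2 < 2 * M) ∧ x.Coprime y ∧
        (x ^ 2 + y ^ 2).Coprime (q₁ * q₂ * r)),
      XK j K N g r c (x ^ 2 + y ^ 2) (om x y) q₁ σ₁ h₁ *
        (starRingEnd ℂ) (XK j K N g r c (x ^ 2 + y ^ 2) (om x y) q₂ σ₂ h₂)‖ ≤
      128 * A * B * E * (C1 * (N : ℝ) ^ (δ / 3) * (Real.sqrt (2 * M) * Q * r * (3 * D)) * GG) *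
        Real.sqrt ((y1 L y : ℝ) * Nat.gcd (Nat.lcm q₁ q₂) y / y) := by
    intro y hy
    rw [mem_Icc] at hy
    have hy0 : (0 : ℝ) < y := by exact_mod_cast hy.1
    have hyY : (y : ℝ) ≤ Real.sqrt (2 * M) := le_trans (by exact_mod_cast hy.2) hYM
    have hx := sum_xK hW j K N g r c M Q H y q₁ σ₁ q₂ σ₂ h₁ h₂ hj hK hjK hg hy.1 hr (by omega) hQ a1 a2
      d1 d2 e1 e2 f1 f2 g1 g2 hk
    obtain ⟨hQ0, hinv⟩ := InAux.inv_sqrt_Q0 y q₁ q₂ r (g * h₁) (g * h₂) hy.1 hr e1 e2 f1 f2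
      (mul_ne_zero hgz c1) (mul_ne_zero hgz c2) hk'
    rw [← hkdef] at hQ0 hinv hx
    rw [← hL, ← hGG] at hinv
    -- powers of 3
    have h3 : (3 : ℝ) ^ #(P0 y q₁ q₂ r k) ≤ C1 * (N : ℝ) ^ (δ / 3) := by
      have hn0 : 0 < y * q₁ * q₂ := by
        have : 0 < q₁ := by omega
        have : 0 < q₂ := by omega
        have := hy.1
        positivity
      refine (InAux.three_pow_le (y * q₁ * q₂) hn0 _ (by unfold P0; exact filter_subset _ _)).trans ?_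
      refine hC1' N _ (by omega) hn0 ?_
      push_cast
      calc (y : ℝ) * q₁ * q₂ ≤ (2 * N) * (2 * N) * (2 * N) := by
            gcongr
            · exact hyY.trans hsqM
            · linarith
            · linarith
        _ = 8 * (N : ℝ) ^ 3 := by ring
    -- logarithm
    have hlcm0 : (0 : ℝ) < Nat.lcm q₁ q₂ := by
      have : 0 < Nat.lcm q₁ q₂ := Nat.lcm_pos (by omega) (by omega)
      exact_mod_cast this
    have hlg : (Nat.lcm q₁ q₂ : ℝ) * Nat.gcd q₁ q₂ = q₁ * q₂ := by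
      have := Nat.gcd_mul_lcm q₁ q₂
      rw [mul_comm] at this
      exact_mod_cast this
    have hg1 : (1 : ℝ) ≤ Nat.gcd q₁ q₂ := by
      have : 1 ≤ Nat.gcd q₁ q₂ := Nat.gcd_pos_of_pos_left _ (by omega)
      exact_mod_cast this
    have hlcmN : (Nat.lcm q₁ q₂ : ℝ) * y * r ≤ 8 * (N : ℝ) ^ 4 := by
      have : (Nat.lcm q₁ q₂ : ℝ) ≤ (2 * N) * (2 * N) := by
        calc (Nat.lcm q₁ q₂ : ℝ) ≤ (Nat.lcm q₁ q₂ : ℝ) * Nat.gcd q₁ q₂ :=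
              le_mul_of_one_le_right hlcm0.le hg1
          _ = q₁ * q₂ := hlg
          _ ≤ (2 * N) * (2 * N) := by
              gcongr
              · linarith
              · linarith
      calc (Nat.lcm q₁ q₂ : ℝ) * y * r ≤ ((2 * N) * (2 * N)) * (2 * N) * N := by
            gcongr
            exact hyY.trans hsqM
        _ = 8 * (N : ℝ) ^ 4 := by ring
    have hlog : 2 + Real.log ((Nat.lcm q₁ q₂ : ℝ) * y * r) ≤ D := by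
      have hx0 : 0 ≤ (Nat.lcm q₁ q₂ : ℝ) * y * r := by positivity
      have h5 := Real.log_le_rpow_div hx0 (ε := δ / 3 / (4 : ℕ)) (by positivity)
      have h6 := InAux.rp N ((Nat.lcm q₁ q₂ : ℝ) * y * r) 8 hN0.le hx0 (by norm_num) 4
        (by norm_num) hlcmN (δ / 3) (by positivity)
      calc 2 + Real.log ((Nat.lcm q₁ q₂ : ℝ) * y * r)
          ≤ 2 + (8 ^ (δ / 3 / (4 : ℕ)) * (N : ℝ) ^ (δ / 3)) / (δ / 3 / (4 : ℕ)) := by
            refine add_le_add (le_refl _) (h5.trans ?_)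
            gcongr
        _ ≤ 2 * (N : ℝ) ^ (δ / 3) +
            (8 ^ (δ / 3 / (4 : ℕ)) * (N : ℝ) ^ (δ / 3)) / (δ / 3 / (4 : ℕ)) := by
            gcongr
            linarith
        _ = D := by rw [hDdef, hC3]; ring
    have h7 := InAux.one_y (Nat.gcd q₁ q₂) q₁ q₂ (Nat.lcm q₁ q₂) y r Q (Real.sqrt (2 * M))
      (3 ^ #(P0 y q₁ q₂ r k)) (Real.sqrt (Q0 y q₁ q₂ r k))
      (Real.sqrt ((y1 L y : ℝ) * Nat.gcd (Nat.lcm q₁ q₂) y / y)) GG D hy0 hr1 hQ1 hq₁0 hq₂0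
      (by positivity)
      (by exact_mod_cast Nat.le_of_dvd (by omega) (Nat.gcd_dvd_left q₁ q₂))
      (by exact_mod_cast Nat.le_of_dvd (by omega) (Nat.gcd_dvd_right q₁ q₂))
      hlg hlcm0.le hq₁Q hq₂Q hyY (Real.sqrt_nonneg _) hGG0
      (Real.sqrt_pos.2 (by exact_mod_cast hQ0)) hinv (by positivity) hlog hD1
    refine hx.trans ?_
    calc 128 * A * B * E * (3 ^ #(P0 y q₁ q₂ r k) *
          (Real.sqrt (2 * M) + (Nat.lcm q₁ q₂ : ℝ) * y * r *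
            (2 + Real.log ((Nat.lcm q₁ q₂ : ℝ) * y * r))) / Real.sqrt (Q0 y q₁ q₂ r k))
        ≤ 128 * A * B * E * (3 ^ #(P0 y q₁ q₂ r k) * (Real.sqrt (2 * M) * Q * r * (3 * D)) *
          (Real.sqrt ((y1 L y : ℝ) * Nat.gcd (Nat.lcm q₁ q₂) y / y) * GG)) :=
          mul_le_mul_of_nonneg_left h7 (by positivity)
      _ ≤ 128 * A * B * E * ((C1 * (N : ℝ) ^ (δ / 3)) * (Real.sqrt (2 * M) * Q * r * (3 * D)) *
          (Real.sqrt ((y1 L y : ℝ) * Nat.gcd (Nat.lcm q₁ q₂) y / y) * GG)) := by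
          gcongr
      _ = _ := by ring
  -- sum over `y`
  rw [gauss_sum M (q₁ * q₂ * r) hM (fun m ω => XK j K N g r c m ω q₁ σ₁ h₁ *
    (starRingEnd ℂ) (XK j K N g r c m ω q₂ σ₂ h₂))]
  have hk1 : 1 ≤ k.natAbs := by
    have := Int.natAbs_pos.2 hk'
    omega
  have hL1 : 1 ≤ L := by
    have : 0 < q₁ := by omega
    have : 0 < q₂ := by omega
    have : 0 < k.natAbs := by omega
    have : 0 < r := by omega
    have : 0 < L := by positivity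
    omega
  have hdvd : Nat.lcm q₁ q₂ ∣ L := by
    refine Nat.lcm_dvd ?_ ?_
    · exact ⟨2 * r * q₂ * k.natAbs, by rw [hL]; ring⟩
    · exact ⟨2 * r * q₁ * k.natAbs, by rw [hL]; ring⟩
  have hbet := hC2' Y L (Nat.lcm q₁ q₂) hY1 hL1 hdvd
  have hkN : (k.natAbs : ℝ) ≤ 4 * (N : ℝ) ^ 2 := by
    have h8 : (k.natAbs : ℝ) = |(k : ℝ)| := by
      rw [Nat.cast_natAbs, Int.cast_abs]
    rw [h8, hkdef]
    push_cast
    have hgH' : (g : ℝ) * H ≤ N := by exact_mod_cast hgH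
    have d1'' : |(h₁ : ℝ)| ≤ H := by exact_mod_cast d1
    have d2'' : |(h₂ : ℝ)| ≤ H := by exact_mod_cast d2
    have d1' : |(g : ℝ) * h₁| ≤ N := by
      rw [abs_mul, Nat.abs_cast]
      exact (mul_le_mul_of_nonneg_left d1'' (Nat.cast_nonneg g)).trans hgH'
    have d2' : |(g : ℝ) * h₂| ≤ N := by
      rw [abs_mul, Nat.abs_cast]
      exact (mul_le_mul_of_nonneg_left d2'' (Nat.cast_nonneg g)).trans hgH'
    calc |(g : ℝ) * h₂ * q₁ - g * h₁ * q₂| ≤ |(g : ℝ) * h₂ * q₁| + |(g : ℝ) * h₁ * q₂| := abs_sub _ _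
      _ = |(g : ℝ) * h₂| * q₁ + |(g : ℝ) * h₁| * q₂ := by
          rw [abs_mul _ (q₁ : ℝ), abs_mul _ (q₂ : ℝ), abs_of_pos hq₁0, abs_of_pos hq₂0]
      _ ≤ N * (2 * N) + N * (2 * N) := by
          gcongr
          · linarith
          · linarith
      _ = 4 * (N : ℝ) ^ 2 := by ring
  have hYL : (Y : ℝ) * L ≤ 64 * (N : ℝ) ^ 6 := by
    rw [hL]
    push_cast
    calc (Y : ℝ) * (2 * r * q₁ * q₂ * (k.natAbs : ℝ))
        ≤ (2 * N) * (2 * N * (2 * N) * (2 * N) * (4 * (N : ℝ) ^ 2)) := by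
          gcongr
          · exact hYM.trans hsqM
          · linarith
          · linarith
      _ = 64 * (N : ℝ) ^ 6 := by ring
  have hbet2 : ∑ y ∈ Icc 1 Y, Real.sqrt ((y1 L y : ℝ) * Nat.gcd (Nat.lcm q₁ q₂) y / y) ≤
      C2 * (C4 * (N : ℝ) ^ (δ / 3)) * Real.sqrt Y := by
    refine hbet.trans ?_
    gcongr
    exact InAux.rp N ((Y : ℝ) * L) 64 hN0.le (by positivity) (by norm_num) 6 (by norm_num) hYL
      (δ / 3) (by positivity)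
  have h34 := InAux.three_quarter M hM0 Y (by positivity) hYM
  have hN3 : (N : ℝ) ^ (δ / 3) * (N : ℝ) ^ (δ / 3) * (N : ℝ) ^ (δ / 3) = (N : ℝ) ^ δ := by
    rw [← Real.rpow_add hN0, ← Real.rpow_add hN0]
    congr 1
    ring
  calc ‖∑ y ∈ Icc 1 (Nat.sqrt (2 * M)), ∑ x ∈ (Icc 1 (Nat.sqrt (2 * M))).filter
        (fun x => (M ≤ x ^ 2 + y ^ 2 ∧ x ^ 2 + y ^ 2 < 2 * M) ∧ x.Coprime y ∧
          (x ^ 2 + y ^ 2).Coprime (q₁ * q₂ * r)),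
        XK j K N g r c (x ^ 2 + y ^ 2) (om x y) q₁ σ₁ h₁ *
          (starRingEnd ℂ) (XK j K N g r c (x ^ 2 + y ^ 2) (om x y) q₂ σ₂ h₂)‖
      ≤ ∑ y ∈ Icc 1 Y, 128 * A * B * E *
        (C1 * (N : ℝ) ^ (δ / 3) * (Real.sqrt (2 * M) * Q * r * (3 * D)) * GG) *
        Real.sqrt ((y1 L y : ℝ) * Nat.gcd (Nat.lcm q₁ q₂) y / y) :=
        (norm_sum_le _ _).trans (sum_le_sum hterm)
    _ = 128 * A * B * E *
        (C1 * (N : ℝ) ^ (δ / 3) * (Real.sqrt (2 * M) * Q * r * (3 * D)) * GG) *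
        ∑ y ∈ Icc 1 Y, Real.sqrt ((y1 L y : ℝ) * Nat.gcd (Nat.lcm q₁ q₂) y / y) := by
        rw [mul_sum]
    _ ≤ 128 * A * B * E *
        (C1 * (N : ℝ) ^ (δ / 3) * (Real.sqrt (2 * M) * Q * r * (3 * D)) * GG) *
        (C2 * (C4 * (N : ℝ) ^ (δ / 3)) * Real.sqrt Y) :=
        mul_le_mul_of_nonneg_left hbet2 (by positivity)
    _ = 384 * (C1 * C2 * C3 * C4) *
        ((N : ℝ) ^ (δ / 3) * (N : ℝ) ^ (δ / 3) * (N : ℝ) ^ (δ / 3)) * A * B * E * (Q * r) * GG *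
        (Real.sqrt (2 * M) * Real.sqrt Y) := by
        rw [hDdef]
        ring
    _ ≤ 384 * (C1 * C2 * C3 * C4) *
        ((N : ℝ) ^ (δ / 3) * (N : ℝ) ^ (δ / 3) * (N : ℝ) ^ (δ / 3)) * A * B * E * (Q * r) * GG *
        (2 * (M : ℝ) ^ (3 / 4 : ℝ)) :=
        mul_le_mul_of_nonneg_left h34 (by positivity)
    _ = 768 * (C1 * C2 * C3 * C4) * (N : ℝ) ^ δ * A * B * E *
          (Q * r * (M : ℝ) ^ (3 / 4 : ℝ)) * GG := by
        rw [hN3]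
        ring
    _ ≤ 768 * (C1 * C2 * C3 * C4) * (N : ℝ) ^ δ * A * B * E *
          (Q * r * (M : ℝ) ^ (3 / 4 : ℝ)) * (g * GG') :=
        mul_le_mul_of_nonneg_left hGGg (by positivity)

end Pool.Agent.Work.MP_73869e_nt.BK
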