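import Mathlib
import Pool.Agent.Work.MP_73869e_nt.BK.KBlk

set_option autoImplicit false

namespace Pool.Agent.Work.MP_73869e_nt.BK

open Finset Pool.Agent.Work.MP_2dba45_nt.BilDef Pool.Agent.Work.MP_2dba45_nt.Bil

/-- one block, with explicit size conditions -/
theorem block_auxK (C : ℝ) (hC : 1 ≤ C) (j K N g r M Q : ℕ) (b : ℕ → ℝ) (f : ℕ → ℕ → ℝ)
    (F : ℕ → ℕ → ℕ → ℂ) (n w u : ℝ)
    (hj : 2 ≤ j) (hK : K = N / j) (hn : n = N) (hw : 1 ≤ w) (hu : 1 ≤ u) (hwn : w ^ 12 = n)
    (hg : 1 ≤ g) (hgu : (g : ℝ) ≤ u)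
    (hr : 1 ≤ r) (hM : 1 ≤ M) (hQ : 1 ≤ Q) (hru : (r : ℝ) ≤ u ^ 12) (hMu : M * u ^ 100 ≤ n)
    (hQu : Q * u ^ 100 ≤ w) (hb : ∀ q, |b q| ≤ 1) (huj : n ^ 2 ≤ u ^ (j - 1))
    (hL2 : 288 * j * u ^ 14 ≤ w ^ 6) (hL3 : u ^ 45 ≤ w ^ 10)
    (hf0 : 1 ≤ K → ∀ m ∈ Ico M (2 * M), ∀ q ∈ Ico Q (2 * Q), m.Coprime r → Squarefree q →
      q.Coprime (2 * m * r) →
      |f m q| ≤ (#(Rt m) : ℝ) * #(Rt q) * (2 * ((m : ℝ) * q * r / (2 * K)) ^ (j - 1)))
    (hf1 : 1 ≤ K → ∀ H, 1 ≤ H → ∀ m ∈ Ico M (2 * M), ∀ q ∈ Ico Q (2 * Q), m.Coprime r →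
      Squarefree q → q.Coprime (2 * m * r) → 2 * H < m * q * r →
      ‖(f m q : ℂ) - F H m q‖ ≤
        (#(Rt m) : ℝ) * #(Rt q) * ((m : ℝ) * q * r / (2 * K * H)) ^ (j - 1))
    (hsq : 2 ≤ M → r ≤ N → M ≤ N → Q ≤ N → 1 ≤ K → ∀ H : ℕ, 1 ≤ H → g * H ≤ N →
      (∑ m ∈ (Ico M (2 * M)).filter (fun m => m.Coprime r),
        ‖∑ q ∈ (Ico Q (2 * Q)).filter (fun q => Squarefree q ∧ q.Coprime (2 * m * r)),
          (b q : ℂ) * F H m q‖) ^ 2 ≤
      C * u ^ 4 * ((K : ℝ) / (M * Q * r)) ^ 2 * M *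
        (Q * M * H + (1 + 4 * Real.pi * N * H / ((M : ℝ) * Q * r)) ^ 2 *
          (1 + 18 * ((g * H : ℕ) : ℝ) / (Q * Real.sqrt M)) * (Q : ℝ) ^ 3 * r *
            (M : ℝ) ^ (3 / 4 : ℝ) * H ^ 2 * g)) :
    (∑ m ∈ (Ico M (2 * M)).filter (fun m => m.Coprime r),
      |∑ q ∈ (Ico Q (2 * Q)).filter (fun q => Squarefree q ∧ q.Coprime (2 * m * r)),
        b q * f m q|) * u ^ 45 ≤
      (C * (8 + 128 * (1 + 64 * Real.pi * j) ^ 2) + 8) * n := by
  classical
  have hj0 : (0 : ℝ) < j := by exact_mod_cast (by omega : 0 < j)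
  have hj1 : (1 : ℝ) ≤ j := by exact_mod_cast (by omega : 1 ≤ j)
  have hjK : j * K ≤ N := by rw [hK]; exact Nat.mul_div_le N j
  have hw0 : 0 < w := by linarith
  have hu0 : 0 < u := by linarith
  have hw6 : 1 ≤ w ^ 6 := one_le_pow₀ hw
  have hu13 : 1 ≤ u ^ 13 := one_le_pow₀ hu
  have hu14 : 1 ≤ u ^ 14 := one_le_pow₀ hu
  have hg0 : (0 : ℝ) < g := by exact_mod_cast hg
  have hu1314 : u ^ 13 ≤ u ^ 14 := pow_le_pow_right₀ hu (by norm_num)
  have hn1 : 1 ≤ n := by rw [← hwn]; exact one_le_pow₀ hw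
  have hn0 : 0 < n := by linarith
  have hw66 : w ^ 6 * w ^ 6 = n := by rw [← hwn]; ring
  have hM0 : (0 : ℝ) < M := by exact_mod_cast hM
  have hQ0 : (0 : ℝ) < Q := by exact_mod_cast hQ
  have hr0 : (0 : ℝ) < r := by exact_mod_cast hr
  have hQ1 : (1 : ℝ) ≤ Q := by exact_mod_cast hQ
  have hr1 : (1 : ℝ) ≤ r := by exact_mod_cast hr
  have hu100 : 1 ≤ u ^ 100 := one_le_pow₀ hu
  have hMn : (M : ℝ) ≤ n := (le_mul_of_one_le_right hM0.le hu100).trans hMu
  have hQw : (Q : ℝ) ≤ w := (le_mul_of_one_le_right hQ0.le hu100).trans hQu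
  -- lower bound for `K`
  have hKn : (K : ℝ) ≤ n := by
    have h1 : K ≤ N := by rw [hK]; exact Nat.div_le_self N j
    rw [hn]
    exact_mod_cast h1
  have h2jn : 2 * (j : ℝ) ≤ n := by
    have : 288 * (j : ℝ) ≤ w ^ 6 := by
      have : 288 * (j : ℝ) * 1 ≤ 288 * j * u ^ 14 := by gcongr
      linarith
    have h1 : w ^ 6 * 1 ≤ w ^ 6 * w ^ 6 := by gcongr
    linarith
  have hKlow : n / (2 * j) ≤ K := by
    have h1 : N < j * K + j := by
      rw [hK]
      have := Nat.div_add_mod N j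
      have h2 := Nat.mod_lt N (show 0 < j by omega)
      omega
    have h2 : (n : ℝ) < j * K + j := by
      rw [hn]
      exact_mod_cast h1
    rw [div_le_iff₀ (by positivity)]
    have h3 : (K : ℝ) * (2 * j) = 2 * (j * K) := by ring
    linarith
  have hK144 : 144 * u ^ 14 * w ^ 6 ≤ K := by
    refine le_trans ?_ hKlow
    rw [le_div_iff₀ (by positivity)]
    calc 144 * u ^ 14 * w ^ 6 * (2 * j) = (288 * j * u ^ 14) * w ^ 6 := by ring
      _ ≤ w ^ 6 * w ^ 6 := by gcongr
      _ = n := hw66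
  have hK0 : (0 : ℝ) < K := lt_of_lt_of_le (by positivity) hK144
  have hK1 : 1 ≤ K := by
    have : (0 : ℝ) < K := hK0
    exact_mod_cast this
  have hu1' : u ≤ u ^ 13 := le_self_pow₀ hu (by norm_num)
  have hK16 : 16 * u < K := by
    have h1 : u * 1 ≤ u ^ 14 * w ^ 6 := by
      have : u ≤ u ^ 14 := le_self_pow₀ hu (by norm_num)
      gcongr
    have h2 : 144 * u ^ 14 * w ^ 6 = 144 * (u ^ 14 * w ^ 6) := by ring
    have h3 : 0 < u ^ 14 * w ^ 6 := by positivity
    linarith
  set D : ℝ := (M : ℝ) * Q * r with hD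
  have hD0 : 0 < D := by positivity
  have hsize : ∀ m ∈ Ico M (2 * M), ∀ q ∈ Ico Q (2 * Q), (m : ℝ) * q * r ≤ 4 * D := by
    intro m hm q hq
    rw [mem_Ico] at hm hq
    have h1 : (m : ℝ) ≤ 2 * M := by exact_mod_cast hm.2.le
    have h2 : (q : ℝ) ≤ 2 * Q := by exact_mod_cast hq.2.le
    calc (m : ℝ) * q * r ≤ (2 * M) * (2 * Q) * r := by gcongr
      _ = 4 * D := by rw [hD]; ring
  -- the error sum
  have hpow : ∀ x : ℝ, 0 ≤ x → x ≤ 1 / u → x ^ (j - 1) ≤ 1 / n ^ 2 := by
    intro x hx0 hx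
    calc x ^ (j - 1) ≤ (1 / u) ^ (j - 1) := pow_le_pow_left₀ hx0 hx _
      _ = 1 / u ^ (j - 1) := by rw [div_pow, one_pow]
      _ ≤ 1 / n ^ 2 := by
          apply one_div_le_one_div_of_le (by positivity) huj
  have herr : 4 * (M : ℝ) ^ 2 * (Q : ℝ) ^ 2 * (2 / n ^ 2) * u ^ 45 ≤ 8 * n := by
    have h1 : (M : ℝ) ^ 2 * (Q : ℝ) ^ 2 ≤ n ^ 2 * w ^ 2 := by gcongr
    calc 4 * (M : ℝ) ^ 2 * (Q : ℝ) ^ 2 * (2 / n ^ 2) * u ^ 45
        = 8 * ((M : ℝ) ^ 2 * (Q : ℝ) ^ 2) / n ^ 2 * u ^ 45 := by ring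
      _ ≤ 8 * (n ^ 2 * w ^ 2) / n ^ 2 * w ^ 10 := by gcongr
      _ = 8 * n := by rw [← hwn]; field_simp
  have hc0 : 0 ≤ C * (8 + 128 * (1 + 64 * Real.pi * j) ^ 2) := by positivity
  have hcop : ∀ m ∈ Ico M (2 * M), ∀ q ∈ Ico Q (2 * Q), m.Coprime r →
      q.Coprime (2 * m * r) → m.Coprime q ∧ (m * q).Coprime r := by
    intro m _ q _ hm hq
    rw [Nat.coprime_mul_iff_right, Nat.coprime_mul_iff_right] at hq
    refine ⟨hq.1.2.symm, ?_⟩
    rw [Nat.coprime_mul_iff_left]
    exact ⟨hm, hq.2⟩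
  by_cases hA : 4 * D * u ≤ K
  · -- trivial case
    have h1 : (∑ m ∈ (Ico M (2 * M)).filter (fun m => m.Coprime r),
        |∑ q ∈ (Ico Q (2 * Q)).filter (fun q => Squarefree q ∧ q.Coprime (2 * m * r)),
          b q * f m q|) ≤
        ∑ m ∈ (Ico M (2 * M)).filter (fun m => m.Coprime r),
          ∑ q ∈ (Ico Q (2 * Q)).filter (fun q => Squarefree q ∧ q.Coprime (2 * m * r)),
            |f m q| := by
      refine sum_le_sum fun m _ => (abs_sum_le_sum_abs _ _).trans (sum_le_sum fun q _ => ?_)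
      rw [abs_mul]
      calc |b q| * |f m q| ≤ 1 * |f m q| := by
            gcongr
            exact hb q
        _ = _ := one_mul _
    have h2 := err_sum M Q r (2 / n ^ 2) (by positivity) hM hQ
      (fun m q => f m q) (by
        intro m hm q hq hmr hsq' hq2
        have hc := hcop m hm q hq hmr hq2
        have hm1 : 1 ≤ m := by have := (mem_Ico.1 hm).1; omega
        have hq1 : 1 ≤ q := by have := (mem_Ico.1 hq).1; omega
        refine (hf0 hK1 m hm q hq hmr hsq' hq2).trans ?_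
        have h3 : ((m : ℝ) * q * r / (2 * K)) ^ (j - 1) ≤ 1 / n ^ 2 := by
          apply hpow _ (by positivity)
          rw [div_le_div_iff₀ (by positivity) hu0]
          have := mul_le_mul_of_nonneg_right (hsize m hm q hq) hu0.le
          linarith
        have h4 : 2 * ((m : ℝ) * q * r / (2 * K)) ^ (j - 1) ≤ 2 / n ^ 2 := by
          calc 2 * ((m : ℝ) * q * r / (2 * K)) ^ (j - 1) ≤ 2 * (1 / n ^ 2) := by gcongr
            _ = 2 / n ^ 2 := by ring
        gcongr)
    calc _ ≤ (4 * (M : ℝ) ^ 2 * (Q : ℝ) ^ 2 * (2 / n ^ 2)) * u ^ 45 := by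
          gcongr
          exact h1.trans h2
      _ ≤ 8 * n := herr
      _ ≤ _ := by
          have := mul_nonneg hc0 hn0.le
          rw [add_mul]
          linarith
  · rw [not_le] at hA
    set H : ℕ := ⌈4 * u * D / K⌉₊ with hH
    have hx1 : 1 < 4 * u * D / K := by
      rw [lt_div_iff₀ hK0]
      linarith
    have hH1 : 1 ≤ H := by
      rw [hH]
      exact Nat.one_le_ceil_iff.2 (by positivity)
    have hHlow : 4 * u * D / K ≤ H := Nat.le_ceil _
    have hHup : (H : ℝ) ≤ 8 * u * D / K := by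
      have h1 : (H : ℝ) < 4 * u * D / K + 1 := Nat.ceil_lt_add_one (by positivity)
      have h2 : 8 * u * D / K = 4 * u * D / K + 4 * u * D / K := by ring
      linarith
    have hru' : (r : ℝ) ≤ u ^ 12 := hru
    have hu6 : u ^ 14 ≤ w ^ 6 := by
      have : 1 * u ^ 14 ≤ 288 * j * u ^ 14 := by
        gcongr
        linarith
      linarith
    have huw : u ≤ w := by
      by_contra hcon
      have h1 : w < u := not_le.1 hcon
      have h2 : w ^ 45 < u ^ 45 := pow_lt_pow_left₀ h1 hw0.le (by norm_num)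
      have h3 : w ^ 10 ≤ w ^ 45 := pow_le_pow_right₀ hw (by norm_num)
      linarith
    have hu1213 : u ^ 12 ≤ u ^ 14 := pow_le_pow_right₀ hu (by norm_num)
    have hrN : r ≤ N := by
      have h1 : w ^ 6 * 1 ≤ w ^ 6 * w ^ 6 := by gcongr
      have : (r : ℝ) ≤ n := by linarith
      rw [hn] at this
      exact_mod_cast this
    have hMN : M ≤ N := by
      rw [hn] at hMn
      exact_mod_cast hMn
    have hwn' : w ≤ n := by
      rw [← hwn]
      exact le_self_pow₀ hw (by norm_num)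
    have hQN : Q ≤ N := by
      have : (Q : ℝ) ≤ n := hQw.trans hwn'
      rw [hn] at this
      exact_mod_cast this
    have hM2 : 2 ≤ M := by
      by_contra hcon
      have hM1 : M = 1 := by omega
      have h1 : (K : ℝ) < 4 * (Q * r) * u := by
        rw [hD, hM1] at hA
        push_cast at hA
        linarith
      have h2 : (Q : ℝ) * r * u ≤ w * u ^ 12 * u := by gcongr
      have h3 : w ≤ w ^ 6 := le_self_pow₀ hw (by norm_num)
      have h4 : w * u ^ 12 * u ≤ w ^ 6 * u ^ 14 := by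
        calc w * u ^ 12 * u = w * u ^ 13 := by ring
          _ ≤ w ^ 6 * u ^ 14 := by gcongr
      have h5 : 0 < w ^ 6 * u ^ 14 := by positivity
      have h6 : 144 * u ^ 14 * w ^ 6 = 144 * (w ^ 6 * u ^ 14) := by ring
      have h7 : 4 * ((Q : ℝ) * r) * u = 4 * (Q * r * u) := by ring
      linarith
    have hHN : g * H ≤ N := by
      have h1 : 8 * u * D / K * u ≤ n := by
        rw [div_mul_eq_mul_div, div_le_iff₀ hK0]
        have h2 : D ≤ n * w * u ^ 12 := by
          rw [hD]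
          gcongr
        have h3 : 8 * u * D * u ≤ 8 * u * (n * w * u ^ 12) * u := by gcongr
        have h4 : 8 * u * (n * w * u ^ 12) * u = n * (8 * u ^ 14 * w) := by ring
        have h5 : w ≤ w ^ 6 := le_self_pow₀ hw (by norm_num)
        have h6 : 8 * u ^ 14 * w ≤ 144 * u ^ 14 * w ^ 6 := by gcongr; norm_num
        have h7 : n * (8 * u ^ 14 * w) ≤ n * K := by
          gcongr
          linarith
        linarith
      have : ((g * H : ℕ) : ℝ) ≤ N := by
        rw [← hn]
        push_cast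
        calc (g : ℝ) * H ≤ u * (8 * u * D / K) := by gcongr
          _ = 8 * u * D / K * u := by ring
          _ ≤ n := h1
      exact_mod_cast this
    have hT1 := hsq hM2 hrN hMN hQN hK1 H hH1 hHN
    set T1 : ℝ := ∑ m ∈ (Ico M (2 * M)).filter (fun m => m.Coprime r),
        ‖∑ q ∈ (Ico Q (2 * Q)).filter (fun q => Squarefree q ∧ q.Coprime (2 * m * r)),
          (b q : ℂ) * F H m q‖ with hT1def
    have hT10 : 0 ≤ T1 := sum_nonneg fun m _ => norm_nonneg _
    -- reduction to T1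
    have hred : (∑ m ∈ (Ico M (2 * M)).filter (fun m => m.Coprime r),
        |∑ q ∈ (Ico Q (2 * Q)).filter (fun q => Squarefree q ∧ q.Coprime (2 * m * r)),
          b q * f m q|) ≤ T1 +
        ∑ m ∈ (Ico M (2 * M)).filter (fun m => m.Coprime r),
          ∑ q ∈ (Ico Q (2 * Q)).filter (fun q => Squarefree q ∧ q.Coprime (2 * m * r)),
            |‖(f m q : ℂ)
              - F H m q‖| := by
      rw [hT1def, ← sum_add_distrib]
      refine sum_le_sum fun m _ => ?_
      have e2 : |∑ q ∈ (Ico Q (2 * Q)).filter (fun q => Squarefree q ∧ q.Coprime (2 * m * r)),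
          b q * f m q| =
          ‖∑ q ∈ (Ico Q (2 * Q)).filter (fun q => Squarefree q ∧ q.Coprime (2 * m * r)),
            (b q : ℂ) * (f m q : ℂ)‖ := by
        rw [← Real.norm_eq_abs, ← Complex.norm_real]
        push_cast
        rfl
      rw [e2]
      have e3 : ∑ q ∈ (Ico Q (2 * Q)).filter (fun q => Squarefree q ∧ q.Coprime (2 * m * r)),
            (b q : ℂ) * (f m q : ℂ) =
          ∑ q ∈ (Ico Q (2 * Q)).filter (fun q => Squarefree q ∧ q.Coprime (2 * m * r)),
            (b q : ℂ) * F H m q +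
          ∑ q ∈ (Ico Q (2 * Q)).filter (fun q => Squarefree q ∧ q.Coprime (2 * m * r)),
            (b q : ℂ) * ((f m q : ℂ)
              - F H m q) := by
        rw [← sum_add_distrib]
        refine sum_congr rfl fun q _ => ?_
        ring
      rw [e3]
      refine (norm_add_le _ _).trans (add_le_add le_rfl ?_)
      refine (norm_sum_le _ _).trans (sum_le_sum fun q _ => ?_)
      rw [norm_mul, abs_of_nonneg (norm_nonneg _), Complex.norm_real]
      calc ‖b q‖ * _ ≤ 1 * _ := by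
            gcongr
            exact hb q
        _ = _ := one_mul _
    have hE := err_sum M Q r (2 / n ^ 2) (by positivity) hM hQ
      (fun m q => ‖(f m q : ℂ)
              - F H m q‖) (by
        intro m hm q hq hmr hsq' hq2
        have hc := hcop m hm q hq hmr hq2
        have hm1 : 1 ≤ m := by have := (mem_Ico.1 hm).1; omega
        have hq1 : 1 ≤ q := by have := (mem_Ico.1 hq).1; omega
        have h2H : 2 * H < m * q * r := by
          have h1 : (2 : ℝ) * H < D := by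
            have h3 : 16 * u * D < K * D := by gcongr
            have h4 : 2 * (8 * u * D / K) < D := by
              rw [← mul_div_assoc, div_lt_iff₀ hK0]
              linarith
            linarith
          have h2 : D ≤ (m : ℝ) * q * r := by
            have h5 : (M : ℝ) ≤ m := by exact_mod_cast (mem_Ico.1 hm).1
            have h6 : (Q : ℝ) ≤ q := by exact_mod_cast (mem_Ico.1 hq).1
            rw [hD]
            gcongr
          have h3 : ((2 * H : ℕ) : ℝ) < ((m * q * r : ℕ) : ℝ) := by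
            push_cast
            linarith
          exact_mod_cast h3
        rw [abs_of_nonneg (norm_nonneg _)]
        refine (hf1 hK1 H hH1 m hm q hq hmr hsq' hq2 h2H).trans ?_
        have hH0 : (0 : ℝ) < H := by exact_mod_cast hH1
        have h3 : ((m : ℝ) * q * r / (2 * K * H)) ^ (j - 1) ≤ 1 / n ^ 2 := by
          apply hpow _ (by positivity)
          rw [div_le_div_iff₀ (by positivity) hu0]
          have h7 := hsize m hm q hq
          have h8 : 4 * u * D ≤ K * H := by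
            have := (div_le_iff₀ hK0).1 hHlow
            linarith
          have h9 : (m : ℝ) * q * r * u ≤ 4 * D * u := by gcongr
          have h10 : 0 ≤ (K : ℝ) * H := by positivity
          have h11 : 4 * D * u = 4 * u * D := by ring
          have h12 : 1 * (2 * (K : ℝ) * H) = 2 * (K * H) := by ring
          linarith
        have h4 : ((m : ℝ) * q * r / (2 * K * H)) ^ (j - 1) ≤ 2 / n ^ 2 := by
          refine h3.trans ?_
          gcongr
          norm_num
        gcongr)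
    -- the bound for T1
    have hmain : T1 * u ^ 45 ≤ C * (8 + 128 * (1 + 64 * Real.pi * j) ^ 2) * n := by
      have hnK : n ≤ 2 * j * K := by
        have := (div_le_iff₀ (by positivity : (0:ℝ) < 2 * j)).1 hKlow
        linarith
      have hH0 : (0 : ℝ) ≤ H := by positivity
      have hHK : (H : ℝ) * K ≤ 8 * u * D := (le_div_iff₀ hK0).1 hHup
      have hAb : 1 + 4 * Real.pi * N * H / D ≤ (1 + 64 * Real.pi * j) * u := by
        have h1 : 4 * Real.pi * N * H / D ≤ 64 * Real.pi * j * u := by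
          rw [div_le_iff₀ hD0]
          have h2 : (N : ℝ) * H ≤ 16 * j * u * D := by
            rw [← hn]
            calc n * H ≤ (2 * j * K) * H := by gcongr
              _ = 2 * j * (H * K) := by ring
              _ ≤ 2 * j * (8 * u * D) := by gcongr
              _ = 16 * j * u * D := by ring
          calc 4 * Real.pi * N * H = 4 * Real.pi * (N * H) := by ring
            _ ≤ 4 * Real.pi * (16 * j * u * D) := by gcongr
            _ = 64 * Real.pi * j * u * D := by ring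
        have h3 : (1 + 64 * Real.pi * j) * u = u + 64 * Real.pi * j * u := by ring
        rw [h3]
        linarith
      have hsM : Real.sqrt M ≤ w ^ 6 := by
        rw [Real.sqrt_le_left (by positivity)]
        calc (M : ℝ) ≤ n := hMn
          _ = (w ^ 6) ^ 2 := by rw [← hwn]; ring
      have hsM0 : 0 < Real.sqrt M := Real.sqrt_pos.2 hM0
      have hBb : 1 + 18 * ((g * H : ℕ) : ℝ) / (Q * Real.sqrt M) ≤ 2 := by
        have h1 : 18 * ((g * H : ℕ) : ℝ) / (Q * Real.sqrt M) ≤ 1 := by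
          rw [div_le_one (by positivity)]
          -- 18 H K ≤ 144 u D ≤ Q √M K
          have h2 : 18 * ((g * H : ℕ) : ℝ) * K ≤ Q * Real.sqrt M * K := by
            push_cast
            calc 18 * ((g : ℝ) * H) * K = 18 * (g * (H * K)) := by ring
              _ ≤ 18 * (u * (8 * u * D)) := by gcongr
              _ = Q * Real.sqrt M * (144 * (u * u) * r * Real.sqrt M) := by
                  rw [hD]
                  nth_rewrite 1 [← Real.mul_self_sqrt hM0.le]
                  ring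
              _ ≤ Q * Real.sqrt M * (144 * (u * u) * u ^ 12 * w ^ 6) := by gcongr
              _ = Q * Real.sqrt M * (144 * u ^ 14 * w ^ 6) := by ring
              _ ≤ Q * Real.sqrt M * K := by gcongr
          exact le_of_mul_le_mul_right h2 hK0
        linarith
      have hGb : (M : ℝ) ^ (3 / 4 : ℝ) ≤ w ^ 9 := by
        calc (M : ℝ) ^ (3 / 4 : ℝ) ≤ (w ^ 12) ^ (3 / 4 : ℝ) := by
              apply Real.rpow_le_rpow hM0.le _ (by norm_num)
              rw [hwn]
              exact hMn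
          _ = w ^ 9 := by
              rw [← Real.rpow_natCast, ← Real.rpow_mul hw0.le, ← Real.rpow_natCast w 9]
              norm_num
      set G : ℝ := (M : ℝ) ^ (3 / 4 : ℝ) with hG
      have hG0 : 0 ≤ G := by positivity
      set A : ℝ := 1 + 4 * Real.pi * N * H / D with hAdef
      set B : ℝ := 1 + 18 * ((g * H : ℕ) : ℝ) / (Q * Real.sqrt M) with hBdef
      have hA0 : 0 ≤ A := by positivity
      have hB0 : 0 ≤ B := by positivity
      set P : ℝ := 1 + 64 * Real.pi * j with hP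
      have hP0 : 0 ≤ P := by positivity
      have hQ3 : (Q : ℝ) ^ 3 * r ≤ w ^ 3 := by
        have h1 : (Q : ℝ) ^ 3 * u ^ 300 ≤ w ^ 3 := by
          calc (Q : ℝ) ^ 3 * u ^ 300 = (Q * u ^ 100) ^ 3 := by ring
            _ ≤ w ^ 3 := by gcongr
        have h2 : (Q : ℝ) ^ 3 * r ≤ (Q : ℝ) ^ 3 * u ^ 300 := by
          have h3 : (r : ℝ) ≤ u ^ 300 := hru.trans (pow_le_pow_right₀ hu (by norm_num))
          gcongr
        linarith
      -- first term
      have ht1 : C * u ^ 4 * ((K : ℝ) / D) ^ 2 * M * (Q * M * H) ≤ 8 * C * u ^ 5 * n * M := by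
        have h1 : ((K : ℝ) / D) ^ 2 * (Q * M * H) * D ≤ 8 * u * (K * Q * M) := by
          calc ((K : ℝ) / D) ^ 2 * (Q * M * H) * D = (K * Q * M) * (H * K) / D := by
                field_simp
            _ ≤ (K * Q * M) * (8 * u * D) / D := by gcongr
            _ = 8 * u * (K * Q * M) := by field_simp
        have h2 : ((K : ℝ) / D) ^ 2 * (Q * M * H) ≤ 8 * u * n := by
          have h3 : (8 * u * n) * D - 8 * u * (K * Q * M) ≥ 0 := by
            have h4 : (K : ℝ) * Q * M ≤ n * D := by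
              rw [hD]
              calc (K : ℝ) * Q * M ≤ n * Q * M := by gcongr
                _ = n * (M * Q * 1) := by ring
                _ ≤ n * (M * Q * r) := by gcongr
            have h6 := mul_le_mul_of_nonneg_left h4 (by positivity : (0 : ℝ) ≤ 8 * u)
            have h7 : 8 * u * (n * D) = (8 * u * n) * D := by ring
            linarith
          have h5 : ((K : ℝ) / D) ^ 2 * (Q * M * H) * D ≤ (8 * u * n) * D := by linarith
          exact le_of_mul_le_mul_right h5 hD0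
        calc C * u ^ 4 * ((K : ℝ) / D) ^ 2 * M * (Q * M * H)
            = C * u ^ 4 * M * (((K : ℝ) / D) ^ 2 * (Q * M * H)) := by ring
          _ ≤ C * u ^ 4 * M * (8 * u * n) := by gcongr
          _ = 8 * C * u ^ 5 * n * M := by ring
      have ht2 : C * u ^ 4 * ((K : ℝ) / D) ^ 2 * M *
          (A ^ 2 * B * (Q : ℝ) ^ 3 * r * G * H ^ 2 * g) ≤
          128 * C * P ^ 2 * u ^ 9 * (M * w ^ 12) := by
        have h1 : ((K : ℝ) / D) ^ 2 * (H : ℝ) ^ 2 ≤ 64 * u ^ 2 := by
          calc ((K : ℝ) / D) ^ 2 * (H : ℝ) ^ 2 = ((H * K) / D) ^ 2 := by ring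
            _ ≤ ((8 * u * D) / D) ^ 2 := by gcongr
            _ = 64 * u ^ 2 := by
                rw [mul_div_assoc, div_self hD0.ne']
                ring
        calc C * u ^ 4 * ((K : ℝ) / D) ^ 2 * M * (A ^ 2 * B * (Q : ℝ) ^ 3 * r * G * H ^ 2 * g)
            = C * u ^ 4 * (((K : ℝ) / D) ^ 2 * (H : ℝ) ^ 2) * M *
              (A ^ 2 * B * ((Q : ℝ) ^ 3 * r) * G) * g := by ring
          _ ≤ C * u ^ 4 * (64 * u ^ 2) * M * ((P * u) ^ 2 * 2 * w ^ 3 * w ^ 9) * u := by gcongr
          _ = 128 * C * P ^ 2 * u ^ 9 * (M * w ^ 12) := by ring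
      have hT1' : T1 ^ 2 ≤ 8 * C * u ^ 5 * n * M + 128 * C * P ^ 2 * u ^ 9 * (M * w ^ 12) := by
        refine hT1.trans ?_
        rw [mul_add]
        exact add_le_add ht1 ht2
      have hsq2 : (T1 * u ^ 45) ^ 2 ≤ (C * (8 + 128 * P ^ 2)) * n ^ 2 := by
        have e1 : u ^ 95 ≤ u ^ 100 := pow_le_pow_right₀ hu (by norm_num)
        have e2 : u ^ 99 ≤ u ^ 100 := pow_le_pow_right₀ hu (by norm_num)
        calc (T1 * u ^ 45) ^ 2 = T1 ^ 2 * u ^ 90 := by ring
          _ ≤ (8 * C * u ^ 5 * n * M + 128 * C * P ^ 2 * u ^ 9 * (M * w ^ 12)) * u ^ 90 := by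
              gcongr
          _ = 8 * C * n * (M * u ^ 95) + 128 * C * P ^ 2 * w ^ 12 * (M * u ^ 99) := by ring
          _ ≤ 8 * C * n * (M * u ^ 100) + 128 * C * P ^ 2 * w ^ 12 * (M * u ^ 100) := by gcongr
          _ ≤ 8 * C * n * n + 128 * C * P ^ 2 * w ^ 12 * n := by gcongr
          _ = (C * (8 + 128 * P ^ 2)) * n ^ 2 := by rw [hwn]; ring
      have hc1 : 1 ≤ C * (8 + 128 * P ^ 2) := by
        have : (1 : ℝ) ≤ 8 + 128 * P ^ 2 := by
          have := sq_nonneg P
          linarith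
        exact one_le_mul_of_one_le_of_one_le hC this
      have h3 : (T1 * u ^ 45) ^ 2 ≤ (C * (8 + 128 * P ^ 2) * n) ^ 2 := by
        refine hsq2.trans ?_
        rw [mul_pow]
        have := le_self_pow₀ hc1 (show (2 : ℕ) ≠ 0 by norm_num)
        gcongr
      exact (pow_le_pow_iff_left₀ (by positivity) (by positivity) (by norm_num)).1 h3
    calc _ ≤ (T1 + 4 * (M : ℝ) ^ 2 * (Q : ℝ) ^ 2 * (2 / n ^ 2)) * u ^ 45 := by
          gcongr
          exact hred.trans (add_le_add le_rfl hE)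
      _ = T1 * u ^ 45 + 4 * (M : ℝ) ^ 2 * (Q : ℝ) ^ 2 * (2 / n ^ 2) * u ^ 45 := by ring
      _ ≤ C * (8 + 128 * (1 + 64 * Real.pi * j) ^ 2) * n + 8 * n := add_le_add hmain herr
      _ = _ := by ring

end Pool.Agent.Work.MP_73869e_nt.BK
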