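import Mathlib
import Pool.Agent.Work.MP_2dba45_nt.BilFin
import Pool.Agent.Work.MP_73869e_nt.BK.KBlk2

set_option autoImplicit false

namespace Pool.Agent.Work.MP_73869e_nt.BK

open Finset Filter Pool.Agent.Work.MP_2dba45_nt.BilDef Pool.Agent.Work.MP_2dba45_nt.Bil

open Classical in
/-- `RemK` restricted to moduli prime to `g` -/
noncomputable def fK (W : ℕ → ℝ) (N g r c m q : ℕ) : ℝ :=
  if m.Coprime g ∧ q.Coprime g then RemK W N (m * q) g r c else 0

open Classical in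
/-- truncated Fourier expansion of `fK` -/
noncomputable def FK (j K N g r c H m q : ℕ) : ℂ :=
  if m.Coprime g ∧ q.Coprime g then
    ∑ ω ∈ Rt m, ∑ σ ∈ Rt q, ∑ h ∈ Hs H, XK j K N g r c m ω q σ h else 0

theorem fK_small (j K N g r c M Q m q : ℕ) (hj : 2 ≤ j) (hK : 1 ≤ K) (hjK : j * K ≤ N)
    (hM : 1 ≤ M) (hQ : 1 ≤ Q) (hr : 1 ≤ r) (hm : m ∈ Ico M (2 * M)) (hq : q ∈ Ico Q (2 * Q))
    (hmr : m.Coprime r) (hq2 : q.Coprime (2 * m * r)) :
    |fK (W j K N) N g r c m q| ≤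
      (#(Rt m) : ℝ) * #(Rt q) * (2 * ((m : ℝ) * q * r / (2 * K)) ^ (j - 1)) := by
  unfold fK
  split_ifs with h
  · rw [mem_Ico] at hm hq
    rw [Nat.coprime_mul_iff_right, Nat.coprime_mul_iff_right] at hq2
    exact rem_smallK j K N g m q r c hj hK hjK (by omega) (by omega) hr h.1 h.2 hq2.1.2.symm
      (Nat.coprime_mul_iff_left.2 ⟨hmr, hq2.2⟩)
  · rw [abs_zero]
    positivity

theorem fK_trunc (j K N g r c M Q m q H : ℕ) (hj : 2 ≤ j) (hK : 1 ≤ K) (hjK : j * K ≤ N)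
    (hM : 1 ≤ M) (hQ : 1 ≤ Q) (hr : 1 ≤ r) (hm : m ∈ Ico M (2 * M)) (hq : q ∈ Ico Q (2 * Q))
    (hmr : m.Coprime r) (hq2 : q.Coprime (2 * m * r)) (hH : 1 ≤ H) (h2 : 2 * H < m * q * r) :
    ‖(fK (W j K N) N g r c m q : ℂ) - FK j K N g r c H m q‖ ≤
      (#(Rt m) : ℝ) * #(Rt q) * ((m : ℝ) * q * r / (2 * K * H)) ^ (j - 1) := by
  unfold fK FK
  split_ifs with h
  · rw [mem_Ico] at hm hq
    rw [Nat.coprime_mul_iff_right, Nat.coprime_mul_iff_right] at hq2
    exact rem_truncK j K N g m q r c H hj hK hjK (by omega) (by omega) hr h.1 h.2 hq2.1.2.symm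
      (Nat.coprime_mul_iff_left.2 ⟨hmr, hq2.2⟩) hH h2
  · rw [Complex.ofReal_zero, sub_zero, norm_zero]
    positivity

/-- the sum over `q` of the truncated expansions is at most the full sum over `TT` -/
theorem FK_le (j K N g r c H Q m : ℕ) (b : ℕ → ℝ) (hbg : ∀ q, ¬ q.Coprime g → b q = 0) :
    ‖∑ q ∈ (Ico Q (2 * Q)).filter (fun q => Squarefree q ∧ q.Coprime (2 * m * r)),
        (b q : ℂ) * FK j K N g r c H m q‖ ≤
      ‖∑ t ∈ (TT Q r H).filter (fun t => m.Coprime t.1), (b t.1 : ℂ) *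
          ∑ ω ∈ Rt m, XK j K N g r c m ω t.1 t.2.1 t.2.2‖ := by
  by_cases hmg : m.Coprime g
  · refine le_of_eq ?_
    congr 1
    rw [← sum_TT_filter Q r H m
      (fun q σ h => (b q : ℂ) * ∑ ω ∈ Rt m, XK j K N g r c m ω q σ h)]
    refine sum_congr rfl fun q _ => ?_
    by_cases hqg : q.Coprime g
    · unfold FK
      rw [if_pos ⟨hmg, hqg⟩]
      simp only [mul_sum]
      rw [sum_comm (s := Rt m)]
      refine sum_congr rfl fun σ _ => ?_
      rw [sum_comm (s := Rt m)]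
    · rw [hbg q hqg]
      simp
  · have h0 : ∑ q ∈ (Ico Q (2 * Q)).filter (fun q => Squarefree q ∧ q.Coprime (2 * m * r)),
        (b q : ℂ) * FK j K N g r c H m q = 0 := by
      refine sum_eq_zero fun q _ => ?_
      unfold FK
      rw [if_neg (fun h => hmg h.1), mul_zero]
    rw [h0, norm_zero]
    exact norm_nonneg _

theorem blockK (hW : WeilBound) (ε : ℝ) (h0 : 0 < ε) (h1 : ε < 1 / 100) :
    ∃ j : ℕ, 2 ≤ j ∧ ∃ η : ℝ, 0 < η ∧ ∃ N₀ : ℕ, ∀ N : ℕ, N₀ ≤ N → ∀ g r c : ℕ, 1 ≤ g →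
      (g : ℝ) ≤ (N : ℝ) ^ (η / 12) → 1 ≤ r →
      (r : ℝ) ≤ (N : ℝ) ^ η → ∀ M Q : ℕ, 1 ≤ M → (M : ℝ) ≤ (N : ℝ) ^ (1 - ε) → 1 ≤ Q →
        (Q : ℝ) ≤ (N : ℝ) ^ (1 / 12 - ε) → ∀ b : ℕ → ℝ, (∀ q, |b q| ≤ 1) →
          (∀ q, ¬ q.Coprime g → b q = 0) →
          ∑ m ∈ (Ico M (2 * M)).filter (fun m => m.Coprime r),
            |∑ q ∈ (Ico Q (2 * Q)).filter (fun q => Squarefree q ∧ q.Coprime (2 * m * r)),
              b q * fK (W j (N / j) N) N g r c m q| ≤ (N : ℝ) ^ (1 - 3 * η) := by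
  set δ : ℝ := ε / 100 with hδ
  have hδ0 : 0 < δ := by positivity
  obtain ⟨C, hC, hsq⟩ := t1_sqK hW δ hδ0
  obtain ⟨j₀, hj₀⟩ := exists_nat_gt (2 / δ)
  set j : ℕ := j₀ + 2 with hj
  have hj2 : 2 ≤ j := by omega
  have hjδ : 2 ≤ δ * ((j - 1 : ℕ) : ℝ) := by
    have h2 : (2 : ℝ) / δ ≤ ((j - 1 : ℕ) : ℝ) := by
      have : (j₀ : ℝ) ≤ ((j - 1 : ℕ) : ℝ) := by exact_mod_cast (by omega : j₀ ≤ j - 1)
      linarith
    have := (div_le_iff₀ hδ0).1 h2
    linarith
  set c : ℝ := C * (8 + 128 * (1 + 64 * Real.pi * j) ^ 2) + 8 with hc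
  -- size conditions
  have e1 : ∀ᶠ N : ℕ in atTop, 288 * (j : ℝ) ≤ (N : ℝ) ^ (1 / 4 : ℝ) :=
    ((tendsto_rpow_atTop (by norm_num : (0 : ℝ) < 1 / 4)).comp
      tendsto_natCast_atTop_atTop).eventually_ge_atTop _
  have e2 : ∀ᶠ N : ℕ in atTop, c ≤ (N : ℝ) ^ δ :=
    ((tendsto_rpow_atTop hδ0).comp tendsto_natCast_atTop_atTop).eventually_ge_atTop _
  obtain ⟨N₀, hN₀⟩ := eventually_atTop.1 (e1.and (e2.and (eventually_ge_atTop 1)))
  refine ⟨j, hj2, 12 * δ, by positivity, N₀, ?_⟩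
  intro N hN g r c' hg hgN hr hrN M Q hM hMN hQ hQN b hb hbg
  obtain ⟨f1, f2, f3⟩ := hN₀ N hN
  set n : ℝ := (N : ℝ) with hn
  have hn1 : 1 ≤ n := by rw [hn]; exact_mod_cast f3
  have hn0 : 0 < n := by linarith
  set w : ℝ := n ^ (1 / 12 : ℝ) with hw
  set u : ℝ := n ^ δ with hu
  have hw1 : 1 ≤ w := Real.one_le_rpow hn1 (by norm_num)
  have hu1 : 1 ≤ u := Real.one_le_rpow hn1 hδ0.le
  have hu0 : 0 < u := by linarith
  have powu : ∀ k : ℕ, u ^ k = n ^ (δ * k) := by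
    intro k
    rw [hu, Real.rpow_mul hn0.le, Real.rpow_natCast]
  have poww : ∀ k : ℕ, w ^ k = n ^ ((1 / 12 : ℝ) * k) := by
    intro k
    rw [hw, Real.rpow_mul hn0.le, Real.rpow_natCast]
  have hwn : w ^ 12 = n := by
    rw [poww]
    norm_num
  have key := block_auxK C hC j (N / j) N g r M Q b (fun m q => fK (W j (N / j) N) N g r c' m q)
    (fun H m q => FK j (N / j) N g r c' H m q) n w u hj2 rfl hn hw1 hu1 hwn hg
    (by
      rw [hu]
      have : 12 * δ / 12 = δ := by ring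
      rw [this] at hgN
      exact hgN) hr hM hQ
    (by rw [powu]; refine hrN.trans (le_of_eq ?_); congr 1; push_cast; ring)
    (by
      rw [powu]
      calc (M : ℝ) * n ^ (δ * (100 : ℕ)) ≤ n ^ (1 - ε) * n ^ (δ * (100 : ℕ)) := by gcongr
        _ = n := by
          rw [← Real.rpow_add hn0]
          have : 1 - ε + δ * ((100 : ℕ) : ℝ) = 1 := by rw [hδ]; push_cast; ring
          rw [this, Real.rpow_one])
    (by
      rw [powu]
      calc (Q : ℝ) * n ^ (δ * (100 : ℕ)) ≤ n ^ (1 / 12 - ε) * n ^ (δ * (100 : ℕ)) := by gcongr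
        _ = w := by
          rw [← Real.rpow_add hn0, hw]
          congr 1
          rw [hδ]; push_cast; ring)
    hb
    (by
      rw [powu]
      calc n ^ 2 = n ^ (2 : ℝ) := by norm_num
        _ ≤ n ^ (δ * ((j - 1 : ℕ) : ℝ)) := Real.rpow_le_rpow_of_exponent_le hn1 hjδ)
    (by
      rw [powu, poww]
      have g1 : n ^ (δ * (14 : ℕ)) ≤ n ^ (1 / 4 : ℝ) := by
        apply Real.rpow_le_rpow_of_exponent_le hn1
        rw [hδ]; push_cast; linarith
      calc 288 * (j : ℝ) * n ^ (δ * (14 : ℕ)) ≤ n ^ (1 / 4 : ℝ) * n ^ (1 / 4 : ℝ) := by gcongr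
        _ = n ^ ((1 / 12 : ℝ) * (6 : ℕ)) := by
          rw [← Real.rpow_add hn0]
          norm_num)
    (by
      rw [powu, poww]
      apply Real.rpow_le_rpow_of_exponent_le hn1
      rw [hδ]; push_cast; linarith)
    (fun hK1 m hm q hq hmr _ hq2 => fK_small j (N / j) N g r c' M Q m q hj2 hK1
      (Nat.mul_div_le N j) hM hQ hr hm hq hmr hq2)
    (fun hK1 H hH m hm q hq hmr _ hq2 h2 => fK_trunc j (N / j) N g r c' M Q m q H hj2 hK1
      (Nat.mul_div_le N j) hM hQ hr hm hq hmr hq2 hH h2)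
    (fun hM2 hrN' hMN' hQN' hK1 H hH1 hHN => by
      refine le_trans ?_ (hsq j (N / j) N g r c' M Q H b (by omega) hK1
        (Nat.mul_div_le N j) hr hrN' hM2 hMN' hQ hQN' hH1 hg hHN hb)
      refine pow_le_pow_left₀ (sum_nonneg fun _ _ => norm_nonneg _) ?_ 2
      exact sum_le_sum fun m _ => FK_le j (N / j) N g r c' H Q m b hbg)
  set T : ℝ := ∑ m ∈ (Ico M (2 * M)).filter (fun m => m.Coprime r),
      |∑ q ∈ (Ico Q (2 * Q)).filter (fun q => Squarefree q ∧ q.Coprime (2 * m * r)),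
        b q * fK (W j (N / j) N) N g r c' m q| with hT
  have g2 : T * u ^ 45 ≤ u * n := by
    refine key.trans ?_
    gcongr
  have g3 : n ^ (1 - 3 * (12 * δ)) * u ^ 36 = n := by
    rw [powu, ← Real.rpow_add hn0]
    have : 1 - 3 * (12 * δ) + δ * ((36 : ℕ) : ℝ) = 1 := by push_cast; ring
    rw [this, Real.rpow_one]
  have g4 : T * u ^ 36 ≤ n := by
    have g5 : T * u ^ 36 * u ^ 9 ≤ n * u ^ 9 := by
      calc T * u ^ 36 * u ^ 9 = T * u ^ 45 := by ring
        _ ≤ u * n := g2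
        _ = n * u ^ 1 := by ring
        _ ≤ n * u ^ 9 := by
          gcongr
          norm_num
    exact le_of_mul_le_mul_right g5 (by positivity)
  have g6 : T * u ^ 36 ≤ n ^ (1 - 3 * (12 * δ)) * u ^ 36 := by rw [g3]; exact g4
  exact le_of_mul_le_mul_right g6 (by positivity)

theorem bilK (hW : WeilBound) : BILK := by
  intro ε hε0 hε1
  obtain ⟨j, hj, η, hη, N₁, hblk⟩ := blockK hW ε hε0 hε1
  have hj0 : (0 : ℝ) < j := by exact_mod_cast (by omega : 0 < j)
  -- `(log₂ N + 1)² ≤ N^{2η}`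
  have e1 : ∀ᶠ N : ℕ in atTop, ((Nat.log 2 N : ℝ) + 1) ≤ (N : ℝ) ^ η := by
    have h1 : ∀ᶠ x : ℝ in atTop, ‖Real.log x‖ ≤ (1 / 4) * ‖x ^ η‖ :=
      (isLittleO_log_rpow_atTop hη).bound (by norm_num)
    have h2 := tendsto_natCast_atTop_atTop (R := ℝ) |>.eventually h1
    have h3 : ∀ᶠ N : ℕ in atTop, (4 : ℝ) ≤ (N : ℝ) ^ η :=
      ((tendsto_rpow_atTop hη).comp tendsto_natCast_atTop_atTop).eventually_ge_atTop _
    filter_upwards [h2, h3, eventually_ge_atTop 1] with N a1 a2 a3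
    have hN1 : (1 : ℝ) ≤ N := by exact_mod_cast a3
    have a4 : (Nat.log 2 N : ℝ) * Real.log 2 ≤ Real.log N := by
      rw [← Real.log_pow]
      apply Real.log_le_log (by positivity)
      exact_mod_cast Nat.pow_log_le_self 2 (by omega)
    have a5 : (1 / 2 : ℝ) ≤ Real.log 2 := by
      have := Real.log_two_gt_d9
      linarith
    have a6 : (0 : ℝ) ≤ Nat.log 2 N := by positivity
    rw [Real.norm_of_nonneg (Real.log_nonneg hN1), Real.norm_of_nonneg (by positivity)] at a1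
    nlinarith
  obtain ⟨N₂, hN₂⟩ := eventually_atTop.1 e1
  refine ⟨η / 12, by positivity, 1 / (2 * j), by positivity, max (max N₁ N₂) (2 * j), ?_⟩
  intro N hN
  have hN1 : N₁ ≤ N := le_trans (le_trans (le_max_left _ _) (le_max_left _ _)) hN
  have hN2 : N₂ ≤ N := le_trans (le_trans (le_max_right _ _) (le_max_left _ _)) hN
  have hNj : 2 * j ≤ N := le_trans (le_max_right _ _) hN
  have hNone : 1 ≤ N := by omega
  have hn1 : (1 : ℝ) ≤ N := by exact_mod_cast hNone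
  have hn0 : (0 : ℝ) < N := by linarith
  have hK1 : 1 ≤ N / j := by
    rw [Nat.one_le_div_iff (by omega)]
    omega
  have hjK : j * (N / j) ≤ N := Nat.mul_div_le N j
  refine ⟨W j (N / j) N, fun n => ⟨W_nonneg _ _ _ _, W_le_one _ _ _ _ (by omega) hK1⟩,
    fun n hn => W_support _ _ _ _ (by omega) hK1 hjK hn, ?_, ?_⟩
  · rw [sum_W j (N / j) N (by omega) hK1 hjK]
    have h1 : N < j * (N / j) + j := by
      have := Nat.div_add_mod N j
      have h2 := Nat.mod_lt N (show 0 < j by omega)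
      omega
    have h2 : (N : ℝ) < j * ((N / j : ℕ) : ℝ) + j := by exact_mod_cast h1
    have h3 : (2 : ℝ) * j ≤ N := by exact_mod_cast hNj
    rw [div_mul_eq_mul_div, div_le_iff₀ (by positivity)]
    have h4 : ((N / j : ℕ) : ℝ) * (2 * j) = 2 * (j * ((N / j : ℕ) : ℝ)) := by ring
    linarith
  · intro g r c hg hgN hr hrN' M Q hM hQ b₀ hb₀
    have hrN : (r : ℝ) ≤ (N : ℝ) ^ η :=
      hrN'.trans (Real.rpow_le_rpow_of_exponent_le hn1 (by linarith))
    classical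
    set b : ℕ → ℝ := fun q => if q.Coprime g then b₀ q else 0 with hbdef
    have hb : ∀ q, |b q| ≤ 1 := by
      intro q
      rw [hbdef]
      simp only
      split_ifs
      · exact hb₀ q
      · rw [abs_zero]; norm_num
    have hred : ∑ m ∈ (Icc 1 ⌊M⌋₊).filter (fun m => m.Coprime (g * r)),
        |∑ q ∈ (Icc 1 ⌊Q⌋₊).filter (fun q => Squarefree q ∧ q.Coprime (2 * m * (g * r))),
          b₀ q * RemK (W j (N / j) N) N (m * q) g r c| ≤
        ∑ m ∈ (Icc 1 ⌊M⌋₊).filter (fun m => m.Coprime r),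
        |∑ q ∈ (Icc 1 ⌊Q⌋₊).filter (fun q => Squarefree q ∧ q.Coprime (2 * m * r)),
          b q * fK (W j (N / j) N) N g r c m q| := by
      have hsub : (Icc 1 ⌊M⌋₊).filter (fun m => m.Coprime (g * r)) ⊆
          (Icc 1 ⌊M⌋₊).filter (fun m => m.Coprime r) := by
        intro m hm
        rw [mem_filter] at hm ⊢
        exact ⟨hm.1, (Nat.coprime_mul_iff_right.1 hm.2).2⟩
      refine le_trans (le_of_eq ?_) (sum_le_sum_of_subset_of_nonneg hsub
        fun m _ _ => abs_nonneg _)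
      refine sum_congr rfl fun m hm => ?_
      rw [mem_filter, Nat.coprime_mul_iff_right] at hm
      congr 1
      rw [sum_filter, sum_filter]
      refine sum_congr rfl fun q _ => ?_
      by_cases h1 : Squarefree q ∧ q.Coprime (2 * m * r)
      · by_cases h2 : q.Coprime g
        · have h3 : Squarefree q ∧ q.Coprime (2 * m * (g * r)) := by
            refine ⟨h1.1, ?_⟩
            obtain ⟨h4, h5⟩ := Nat.coprime_mul_iff_right.1 h1.2
            exact Nat.coprime_mul_iff_right.2 ⟨h4, Nat.coprime_mul_iff_right.2 ⟨h2, h5⟩⟩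
          rw [if_pos h1, if_pos h3, hbdef]
          simp only
          unfold fK
          rw [if_pos h2, if_pos ⟨hm.2.1, h2⟩]
        · have h3 : ¬ (Squarefree q ∧ q.Coprime (2 * m * (g * r))) := by
            rintro ⟨_, h4⟩
            exact h2 (Nat.coprime_mul_iff_right.1 (Nat.coprime_mul_iff_right.1 h4).2).1
          rw [if_pos h1, if_neg h3, hbdef]
          simp only
          rw [if_neg h2, zero_mul]
      · have h3 : ¬ (Squarefree q ∧ q.Coprime (2 * m * (g * r))) := by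
          rintro ⟨h4, h5⟩
          obtain ⟨h6, h7⟩ := Nat.coprime_mul_iff_right.1 h5
          exact h1 ⟨h4, Nat.coprime_mul_iff_right.2 ⟨h6, (Nat.coprime_mul_iff_right.1 h7).2⟩⟩
        rw [if_neg h1, if_neg h3]
    refine hred.trans ?_
    have hfin : (N : ℝ) ^ (1 - η) ≤ (N : ℝ) ^ (1 - η / 12) :=
      Real.rpow_le_rpow_of_exponent_le hn1 (by linarith)
    refine le_trans ?_ hfin
    have hlog := hN₂ N hN2
    -- the two dyadic decompositions
    have hMN : ⌊M⌋₊ ≤ N := by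
      have h1 : M ≤ N := by
        refine hM.trans ?_
        calc (N : ℝ) ^ (1 - ε) ≤ (N : ℝ) ^ (1 : ℝ) :=
              Real.rpow_le_rpow_of_exponent_le hn1 (by linarith)
          _ = N := Real.rpow_one _
      exact Nat.floor_le_of_le h1
    have hQN : ⌊Q⌋₊ ≤ N := by
      have h1 : Q ≤ N := by
        refine hQ.trans ?_
        calc (N : ℝ) ^ (1 / 12 - ε) ≤ (N : ℝ) ^ (1 : ℝ) :=
              Real.rpow_le_rpow_of_exponent_le hn1 (by linarith)
          _ = N := Real.rpow_one _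
      exact Nat.floor_le_of_le h1
    by_cases hM1 : 1 ≤ ⌊M⌋₊
    swap
    · have : ⌊M⌋₊ = 0 := by omega
      rw [this]
      simp only [Icc_eq_empty (by norm_num : ¬ (1 : ℕ) ≤ 0), filter_empty, sum_empty]
      positivity
    by_cases hQ1 : 1 ≤ ⌊Q⌋₊
    swap
    · have : ⌊Q⌋₊ = 0 := by omega
      rw [this]
      simp only [Icc_eq_empty (by norm_num : ¬ (1 : ℕ) ≤ 0), filter_empty, sum_empty, abs_zero,
        sum_const_zero]
      positivity
    have hM0 : 0 ≤ M := by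
      by_contra hcon
      have : ⌊M⌋₊ = 0 := Nat.floor_of_nonpos (by linarith)
      omega
    have hQ0 : 0 ≤ Q := by
      by_contra hcon
      have : ⌊Q⌋₊ = 0 := Nat.floor_of_nonpos (by linarith)
      omega
    -- inner sums
    have hin : ∀ m : ℕ, |∑ q ∈ (Icc 1 ⌊Q⌋₊).filter (fun q => Squarefree q ∧
        q.Coprime (2 * m * r)), b q * fK (W j (N / j) N) N g r c m q| ≤
        ∑ l ∈ range (Nat.log 2 ⌊Q⌋₊ + 1), |∑ q ∈ (Ico (2 ^ l) (2 * 2 ^ l)).filter
          (fun q => Squarefree q ∧ q.Coprime (2 * m * r)),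
          (if q ≤ ⌊Q⌋₊ then b q else 0) * fK (W j (N / j) N) N g r c m q| := by
      intro m
      rw [sum_filter, dyadic]
      refine (abs_sum_le_sum_abs _ _).trans (le_of_eq ?_)
      refine sum_congr rfl fun l _ => ?_
      congr 1
      rw [sum_filter]
      refine sum_congr rfl fun q _ => ?_
      by_cases h5 : q ≤ ⌊Q⌋₊
      · by_cases h6 : Squarefree q ∧ q.Coprime (2 * m * r)
        · rw [if_pos h5, if_pos h6, if_pos h6, if_pos h5]
        · rw [if_pos h5, if_neg h6, if_neg h6]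
      · rw [if_neg h5]
        by_cases h6 : Squarefree q ∧ q.Coprime (2 * m * r)
        · rw [if_pos h6, if_neg h5, zero_mul]
        · rw [if_neg h6]
    have hout : ∑ m ∈ (Icc 1 ⌊M⌋₊).filter (fun m => m.Coprime r),
        |∑ q ∈ (Icc 1 ⌊Q⌋₊).filter (fun q => Squarefree q ∧ q.Coprime (2 * m * r)),
          b q * fK (W j (N / j) N) N g r c m q| ≤
        ∑ i ∈ range (Nat.log 2 ⌊M⌋₊ + 1), ∑ l ∈ range (Nat.log 2 ⌊Q⌋₊ + 1),
          ∑ m ∈ (Ico (2 ^ i) (2 * 2 ^ i)).filter (fun m => m.Coprime r),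
            |∑ q ∈ (Ico (2 ^ l) (2 * 2 ^ l)).filter
              (fun q => Squarefree q ∧ q.Coprime (2 * m * r)),
              (if q ≤ ⌊Q⌋₊ then b q else 0) * fK (W j (N / j) N) N g r c m q| := by
      rw [sum_filter, dyadic]
      refine sum_le_sum fun i _ => ?_
      rw [sum_comm, sum_filter]
      refine sum_le_sum fun m _ => ?_
      by_cases h5 : m.Coprime r
      · rw [if_pos h5, if_pos h5]
        by_cases h6 : m ≤ ⌊M⌋₊
        · rw [if_pos h6]
          exact hin m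
        · rw [if_neg h6]
          exact sum_nonneg fun _ _ => abs_nonneg _
      · rw [if_neg h5, if_neg h5]
        split_ifs <;> exact le_rfl
    refine hout.trans ?_
    have hblock : ∀ i ∈ range (Nat.log 2 ⌊M⌋₊ + 1), ∀ l ∈ range (Nat.log 2 ⌊Q⌋₊ + 1),
        ∑ m ∈ (Ico (2 ^ i) (2 * 2 ^ i)).filter (fun m => m.Coprime r),
            |∑ q ∈ (Ico (2 ^ l) (2 * 2 ^ l)).filter
              (fun q => Squarefree q ∧ q.Coprime (2 * m * r)),
              (if q ≤ ⌊Q⌋₊ then b q else 0) * fK (W j (N / j) N) N g r c m q| ≤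
          (N : ℝ) ^ (1 - 3 * η) := by
      intro i hi l hl
      rw [mem_range] at hi hl
      have h5 : 2 ^ i ≤ ⌊M⌋₊ :=
        (Nat.pow_le_pow_right (by norm_num) (by omega)).trans (Nat.pow_log_le_self 2 (by omega))
      have h6 : 2 ^ l ≤ ⌊Q⌋₊ :=
        (Nat.pow_le_pow_right (by norm_num) (by omega)).trans (Nat.pow_log_le_self 2 (by omega))
      have h7 : ((2 ^ i : ℕ) : ℝ) ≤ (N : ℝ) ^ (1 - ε) := by
        have : ((2 ^ i : ℕ) : ℝ) ≤ (⌊M⌋₊ : ℝ) := by exact_mod_cast h5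
        exact this.trans ((Nat.floor_le hM0).trans hM)
      have h8 : ((2 ^ l : ℕ) : ℝ) ≤ (N : ℝ) ^ (1 / 12 - ε) := by
        have : ((2 ^ l : ℕ) : ℝ) ≤ (⌊Q⌋₊ : ℝ) := by exact_mod_cast h6
        exact this.trans ((Nat.floor_le hQ0).trans hQ)
      refine hblk N hN1 g r c hg hgN hr hrN (2 ^ i) (2 ^ l) Nat.one_le_two_pow h7
        Nat.one_le_two_pow h8 (fun q => if q ≤ ⌊Q⌋₊ then b q else 0) ?_ ?_
      · intro q
        show |if q ≤ ⌊Q⌋₊ then b q else 0| ≤ 1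
        split_ifs
        · exact hb q
        · rw [abs_zero]; norm_num
      · intro q hq
        show (if q ≤ ⌊Q⌋₊ then b q else 0) = 0
        split_ifs
        · rw [hbdef]
          simp only
          rw [if_neg hq]
        · rfl
    refine (sum_le_sum fun i hi => sum_le_sum fun l hl => hblock i hi l hl).trans ?_
    rw [sum_const, sum_const, card_range, card_range, nsmul_eq_mul, nsmul_eq_mul]
    have h9 : ((Nat.log 2 ⌊M⌋₊ + 1 : ℕ) : ℝ) ≤ (N : ℝ) ^ η := by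
      refine le_trans ?_ hlog
      push_cast
      have := Nat.log_mono_right (b := 2) hMN
      have h10 : (Nat.log 2 ⌊M⌋₊ : ℝ) ≤ Nat.log 2 N := by exact_mod_cast this
      linarith
    have h10 : ((Nat.log 2 ⌊Q⌋₊ + 1 : ℕ) : ℝ) ≤ (N : ℝ) ^ η := by
      refine le_trans ?_ hlog
      push_cast
      have := Nat.log_mono_right (b := 2) hQN
      have h10 : (Nat.log 2 ⌊Q⌋₊ : ℝ) ≤ Nat.log 2 N := by exact_mod_cast this
      linarith
    calc ((Nat.log 2 ⌊M⌋₊ + 1 : ℕ) : ℝ) * (((Nat.log 2 ⌊Q⌋₊ + 1 : ℕ) : ℝ) *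
          (N : ℝ) ^ (1 - 3 * η))
        ≤ (N : ℝ) ^ η * ((N : ℝ) ^ η * (N : ℝ) ^ (1 - 3 * η)) := by gcongr
      _ = (N : ℝ) ^ (1 - η) := by
          rw [← Real.rpow_add hn0, ← Real.rpow_add hn0]
          congr 1
          ring

end Pool.Agent.Work.MP_73869e_nt.BK
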